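import Pool.Agent.Helper313PK.Sq

/-!
# The sum of the tails
-/

set_option autoImplicit false

open Complex Finset

namespace Pool.Agent.Helper313PK

variable {α : ℝ}

/-- the sum of the inverse distances -/
theorem harm_le {N j₀ : ℕ} (hj : j₀ < N) :
    ∑ j ∈ (range N).erase j₀, 1 / |(j : ℝ) - j₀| ≤ 2 * (1 + Real.log N) := by
  have hh : ∀ n : ℕ, n ≤ N → ∑ i ∈ range n, 1 / ((i : ℝ) + 1) ≤ 1 + Real.log N := by
    intro n hn
    rcases Nat.eq_zero_or_pos n with rfl | hn0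
    · rw [sum_range_zero]
      have : 0 ≤ Real.log N := Real.log_natCast_nonneg N
      linarith
    have h1 := harmonic_le_one_add_log n
    have h2 : (harmonic n : ℝ) = ∑ i ∈ range n, 1 / ((i : ℝ) + 1) := by
      unfold harmonic
      push_cast
      exact sum_congr rfl fun i _ => by rw [one_div]
    rw [h2] at h1
    have h3 : Real.log n ≤ Real.log N :=
      Real.log_le_log (by exact_mod_cast hn0) (by exact_mod_cast hn)
    linarith
  have hsplit : (range N).erase j₀ = range j₀ ∪ Ico (j₀ + 1) N := by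
    ext j
    simp only [mem_erase, mem_range, mem_union, mem_Ico]
    omega
  have hdisj : Disjoint (range j₀) (Ico (j₀ + 1) N) := by
    rw [disjoint_left]
    intro j h1 h2
    rw [mem_range] at h1
    rw [mem_Ico] at h2
    omega
  rw [hsplit, sum_union hdisj]
  have e1 : ∑ j ∈ range j₀, 1 / |(j : ℝ) - j₀| = ∑ i ∈ range j₀, 1 / ((i : ℝ) + 1) := by
    rw [← sum_range_reflect (fun i : ℕ => 1 / ((i : ℝ) + 1)) j₀]
    refine sum_congr rfl fun j hj' => ?_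
    rw [mem_range] at hj'
    congr 1
    have h1 : ((j₀ - 1 - j : ℕ) : ℝ) = (j₀ : ℝ) - 1 - j := by
      rw [Nat.sub_sub, Nat.cast_sub (by omega)]
      push_cast
      ring
    have h2 : (j : ℝ) < j₀ := by exact_mod_cast hj'
    rw [h1, abs_of_neg (by linarith)]
    ring
  have e2 : ∑ j ∈ Ico (j₀ + 1) N, 1 / |(j : ℝ) - j₀| =
      ∑ i ∈ range (N - (j₀ + 1)), 1 / ((i : ℝ) + 1) := by
    rw [sum_Ico_eq_sum_range]
    refine sum_congr rfl fun i _ => ?_
    congr 1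
    push_cast
    rw [abs_of_nonneg (by linarith [Nat.cast_nonneg (α := ℝ) i])]
    ring
  rw [e1, e2]
  have := hh j₀ hj.le
  have := hh (N - (j₀ + 1)) (by omega)
  linarith

/-- the contribution of a point, if it is not near -/
noncomputable def TT (α : ℝ) (k j : ℕ) (ζ : ℂ) : ℝ :=
  if ‖ζ - pt α k j‖ ≤ rr α k then 0 else mm α k / ‖ζ - pt α k j‖

/-- the contribution of a scale -/
noncomputable def TS (α : ℝ) (k : ℕ) (ζ : ℂ) : ℝ := ∑ j ∈ range (NN α k), TT α k j ζ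

theorem TT_nonneg (k j : ℕ) (ζ : ℂ) : 0 ≤ TT α k j ζ := by
  unfold TT
  split_ifs
  · exact le_rfl
  · exact div_nonneg (mm_pos k).le (norm_nonneg _)

theorem TS_nonneg (k : ℕ) (ζ : ℂ) : 0 ≤ TS α k ζ := sum_nonneg fun _ _ => TT_nonneg _ _ _

/-- the scales which are near `ζ` -/
def near (k : ℕ) (ζ : ℂ) : Prop := ss k / 4 < ‖1 - ζ‖ ∧ ‖1 - ζ‖ ≤ 4 * ss k

theorem ss_lt {k l : ℕ} (h : k < l) : 16 * ss l ≤ ss k := by
  unfold ss
  obtain ⟨d, rfl⟩ := Nat.exists_eq_add_of_lt h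
  have h2 : (1 / 16 : ℝ) ^ d ≤ 1 := pow_le_one₀ (by norm_num) (by norm_num)
  have h3 : (0 : ℝ) < (1 / 16 : ℝ) ^ (k + 1) := by positivity
  have e : (1 / 16 : ℝ) ^ (k + d + 1 + 1) = (1 / 16 : ℝ) ^ (k + 1) * (1 / 16 : ℝ) ^ d * (1 / 16) := by
    rw [← pow_add, ← pow_succ]
    congr 1
    omega
  rw [e]
  nlinarith

theorem near_unique {k l : ℕ} {ζ : ℂ} (hk : near k ζ) (hl : near l ζ) : k = l := by
  by_contra hne
  wlog hlt : k < l generalizing k l with H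
  · exact H hl hk (fun h => hne h.symm) (by omega)
  have h1 := ss_lt hlt
  have h2 := hk.1
  have h3 := hl.2
  linarith

theorem far_dist (h0 : 0 < α) (h1 : α < 1) {k j : ℕ} {ζ : ℂ} (hk : ¬ near k ζ)
    (hj : j < NN α k) : ‖1 - ζ‖ / 2 ≤ ‖ζ - pt α k j‖ ∧ rr α k < ‖ζ - pt α k j‖ := by
  have hs := ss_pos k
  have hr := rr_le h0 h1 k
  obtain ⟨h2, h3⟩ := pt_one hj
  rcases le_or_gt ‖1 - ζ‖ (ss k / 4) with h4 | h4
  · have h5 : ‖1 - pt α k j‖ ≤ ‖1 - ζ‖ + ‖ζ - pt α k j‖ := by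
      have := norm_add_le (1 - ζ) (ζ - pt α k j)
      rwa [sub_add_sub_cancel] at this
    constructor <;> linarith
  · have h5 : 4 * ss k < ‖1 - ζ‖ := by
      by_contra h
      exact hk ⟨h4, not_lt.1 h⟩
    have h6 : ‖1 - ζ‖ ≤ ‖1 - pt α k j‖ + ‖ζ - pt α k j‖ := by
      have := norm_sub_le (1 - pt α k j) (ζ - pt α k j)
      rwa [sub_sub_sub_cancel_right] at this
    constructor <;> linarith

theorem TS_far (h0 : 0 < α) (h1 : α < 1) {k : ℕ} {ζ : ℂ} (hζ : ζ ≠ 1) (hk : ¬ near k ζ) :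
    TS α k ζ ≤ 2 * ((NN α k : ℝ) * mm α k) / ‖1 - ζ‖ := by
  have hD : 0 < ‖1 - ζ‖ := norm_pos_iff.2 (sub_ne_zero.2 hζ.symm)
  have hm := mm_pos (α := α) k
  have h2 : ∀ j ∈ range (NN α k), TT α k j ζ ≤ 2 * mm α k / ‖1 - ζ‖ := by
    intro j hj
    obtain ⟨h3, h4⟩ := far_dist h0 h1 hk (mem_range.1 hj)
    unfold TT
    rw [if_neg (not_le.2 h4), div_le_div_iff₀ (by linarith) hD]
    nlinarith
  refine (sum_le_sum h2).trans (le_of_eq ?_)
  rw [sum_const, card_range, nsmul_eq_mul]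
  ring

theorem TS_near (h0 : 0 < α) (h1 : α < 1) : ∃ C : ℝ, 0 < C ∧ ∀ (k : ℕ) (ζ : ℂ),
    TS α k ζ ≤ C / ss k := by
  obtain ⟨C, hC, hlog⟩ := NNmm_log h0 h1
  refine ⟨4 + 32 / 5 * C, by positivity, fun k ζ => ?_⟩
  have hs := ss_pos k
  have hm := mm_pos (α := α) k
  have hr := rr_pos (α := α) k
  have hN := NN_posR (α := α) k
  have hne : (range (NN α k)).Nonempty := ⟨0, mem_range.2 (NN_pos k)⟩
  obtain ⟨j₀, hj₀, hmin⟩ := exists_min_image (range (NN α k)) (fun j => ‖ζ - pt α k j‖) hne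
  unfold TS
  rw [← add_sum_erase _ _ hj₀]
  have h2 : TT α k j₀ ζ ≤ 4 / ss k := by
    unfold TT
    split_ifs with h
    · positivity
    · refine le_trans ?_ (mm_div_rr h0 h1 k)
      exact div_le_div_of_nonneg_left hm.le hr (not_le.1 h).le
  have h3 : ∀ j ∈ (range (NN α k)).erase j₀, TT α k j ζ ≤
      16 / 5 * ((NN α k : ℝ) * mm α k / ss k) * (1 / |(j : ℝ) - j₀|) := by
    intro j hj
    rw [mem_erase, mem_range] at hj
    have hjj : 0 < |(j : ℝ) - j₀| := by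
      rw [abs_pos, sub_ne_zero]
      exact_mod_cast hj.1
    have h4 := pt_sub hj.2 (mem_range.1 hj₀)
    have h5 := hmin j (mem_range.2 hj.2)
    have h6 : ‖pt α k j - pt α k j₀‖ ≤ ‖ζ - pt α k j₀‖ + ‖ζ - pt α k j‖ := by
      have := norm_sub_le (ζ - pt α k j₀) (ζ - pt α k j)
      rwa [sub_sub_sub_cancel_left] at this
    have h7 : 5 / 16 * (ss k / NN α k) * |(j : ℝ) - j₀| ≤ ‖ζ - pt α k j‖ := by linarith
    have h8 : 0 < 5 / 16 * (ss k / NN α k) * |(j : ℝ) - j₀| := by positivity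
    unfold TT
    split_ifs with h
    · positivity
    · calc mm α k / ‖ζ - pt α k j‖ ≤ mm α k / (5 / 16 * (ss k / NN α k) * |(j : ℝ) - j₀|) :=
            div_le_div_of_nonneg_left hm.le h8 h7
        _ = _ := by field_simp
  have h9 := sum_le_sum h3
  rw [← mul_sum] at h9
  have h10 := harm_le (mem_range.1 hj₀)
  have h11 : 16 / 5 * ((NN α k : ℝ) * mm α k / ss k) *
      ∑ j ∈ (range (NN α k)).erase j₀, 1 / |(j : ℝ) - j₀| ≤ 32 / 5 * C / ss k := by
    calc 16 / 5 * ((NN α k : ℝ) * mm α k / ss k) *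
          ∑ j ∈ (range (NN α k)).erase j₀, 1 / |(j : ℝ) - j₀|
        ≤ 16 / 5 * ((NN α k : ℝ) * mm α k / ss k) * (2 * (1 + Real.log (NN α k))) :=
          mul_le_mul_of_nonneg_left h10 (by positivity)
      _ = 32 / 5 * ((NN α k : ℝ) * mm α k * (1 + Real.log (NN α k))) / ss k := by ring
      _ ≤ _ := by
          refine div_le_div_of_nonneg_right ?_ hs.le
          exact mul_le_mul_of_nonneg_left (hlog k) (by norm_num)
  calc TT α k j₀ ζ + ∑ x ∈ (range (NN α k)).erase j₀, TT α k x ζ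
      ≤ 4 / ss k + 32 / 5 * C / ss k := add_le_add h2 (h9.trans h11)
    _ = _ := by ring

/-- the main estimate -/
theorem TS_sum (h0 : 0 < α) (h1 : α < 1) : ∃ C : ℝ, 0 < C ∧ ∀ ζ : ℂ, ζ ≠ 1 →
    Summable (fun k => TS α k ζ) ∧ ∑' k, TS α k ζ ≤ C / ‖1 - ζ‖ := by
  obtain ⟨C, hC, hn⟩ := TS_near h0 h1
  have hsum := summable_NNmm h0 h1
  set M : ℝ := ∑' k, (NN α k : ℝ) * mm α k with hM
  have hM0 : 0 ≤ M := tsum_nonneg fun k => mul_nonneg (Nat.cast_nonneg _) (mm_pos k).le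
  refine ⟨2 * M + 4 * C, by positivity, fun ζ hζ => ?_⟩
  have hD : 0 < ‖1 - ζ‖ := norm_pos_iff.2 (sub_ne_zero.2 hζ.symm)
  -- the bound for all scales
  obtain ⟨k₀, hk₀⟩ : ∃ k₀ : ℕ, ∀ k, k ≠ k₀ → ¬ near k ζ := by
    by_cases h : ∃ k, near k ζ
    · obtain ⟨k, hk⟩ := h
      exact ⟨k, fun l hl hl' => hl (near_unique hl' hk)⟩
    · push Not at h
      exact ⟨0, fun k _ => h k⟩
  have hbd : ∀ k, TS α k ζ ≤ 2 * ((NN α k : ℝ) * mm α k) / ‖1 - ζ‖ +
      (if k = k₀ then 4 * C / ‖1 - ζ‖ else 0) := by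
    intro k
    have h3 : 0 ≤ 2 * ((NN α k : ℝ) * mm α k) / ‖1 - ζ‖ := by
      have := mm_pos (α := α) k
      positivity
    by_cases hk : near k ζ
    · have h2 : k = k₀ := by
        by_contra h
        exact hk₀ k h hk
      rw [if_pos h2]
      have h4 : C / ss k ≤ 4 * C / ‖1 - ζ‖ := by
        rw [div_le_div_iff₀ (ss_pos k) hD]
        nlinarith [hk.2]
      linarith [hn k ζ]
    · have h4 := TS_far h0 h1 hζ hk
      have h5 : (0 : ℝ) ≤ if k = k₀ then 4 * C / ‖1 - ζ‖ else 0 := by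
        split_ifs <;> positivity
      linarith
  have hs1 : Summable fun k => 2 * ((NN α k : ℝ) * mm α k) / ‖1 - ζ‖ :=
    (hsum.mul_left 2).div_const _
  have hs2 : Summable fun k => (if k = k₀ then 4 * C / ‖1 - ζ‖ else (0 : ℝ)) :=
    (hasSum_ite_eq k₀ _).summable
  have hs := hs1.add hs2
  have hsT : Summable fun k => TS α k ζ :=
    Summable.of_nonneg_of_le (fun k => TS_nonneg k ζ) hbd hs
  refine ⟨hsT, (hsT.tsum_le_tsum hbd hs).trans (le_of_eq ?_)⟩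
  rw [hs1.tsum_add hs2, tsum_ite_eq, tsum_div_const, tsum_mul_left]
  ring

end Pool.Agent.Helper313PK
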