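import Mathlib

/-!
# Gevrey functions which are flat at a boundary point
-/

set_option autoImplicit false

open Complex Metric Filter Topology Set

namespace Pool.Agent.Helper313PK

theorem diff_iter {F : ℂ → ℂ} (hF : DifferentiableOn ℂ F (ball 0 1)) (k : ℕ) :
    DifferentiableOn ℂ (iteratedDeriv k F) (ball 0 1) := by
  induction k with
  | zero => rw [iteratedDeriv_zero]; exact hF
  | succ k ih => rw [iteratedDeriv_succ]; exact ih.deriv isOpen_ball

theorem seg_mem {ζ z : ℂ} (hζ : ‖ζ‖ ≤ 1) (hz : ‖z‖ < 1) {s : ℝ} (hs : 0 < s) (hs1 : s ≤ 1) :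
    ζ + (s : ℂ) * (z - ζ) ∈ ball (0 : ℂ) 1 := by
  rw [mem_ball_zero_iff]
  have e : ζ + (s : ℂ) * (z - ζ) = ((1 - s : ℝ) : ℂ) * ζ + (s : ℂ) * z := by
    push_cast; ring
  rw [e]
  have h1 : ‖((1 - s : ℝ) : ℂ) * ζ‖ ≤ 1 - s := by
    rw [norm_mul, norm_real, Real.norm_eq_abs, abs_of_nonneg (by linarith)]
    nlinarith
  have h2 : ‖(s : ℂ) * z‖ < s := by
    rw [norm_mul, norm_real, Real.norm_eq_abs, abs_of_pos hs]
    nlinarith
  linarith [norm_add_le (((1 - s : ℝ) : ℂ) * ζ) ((s : ℂ) * z)]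

/-- one step of the Taylor estimate at a boundary point -/
theorem step {G : ℂ → ℂ} (hG : DifferentiableOn ℂ G (ball 0 1)) {ζ z : ℂ} (hζ : ‖ζ‖ ≤ 1)
    (hz : ‖z‖ < 1) (h0 : Tendsto G (𝓝[ball 0 1] ζ) (𝓝 0)) {M : ℝ} {m : ℕ}
    (hd : ∀ s : ℝ, 0 < s → s ≤ 1 → ‖deriv G (ζ + (s : ℂ) * (z - ζ))‖ ≤
      M * (‖z - ζ‖ * s) ^ m / m.factorial) (s : ℝ) (hs : 0 < s) (hs1 : s ≤ 1) :
    ‖G (ζ + (s : ℂ) * (z - ζ))‖ ≤ M * (‖z - ζ‖ * s) ^ (m + 1) / (m + 1).factorial := by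
  set d := ‖z - ζ‖ with hdd
  let γ : ℝ → ℂ := fun s => ζ + (s : ℂ) * (z - ζ)
  let B : ℝ → ℝ := fun s => M * (d * s) ^ (m + 1) / (m + 1).factorial
  have hfac : ((m + 1).factorial : ℝ) = (m + 1) * m.factorial := by
    rw [Nat.factorial_succ]; push_cast; ring
  have hm0 : (m.factorial : ℝ) ≠ 0 := by positivity
  have hm1 : ((m : ℝ) + 1) ≠ 0 := by positivity
  have hB : ∀ x, HasDerivAt B (M * (d * x) ^ m / m.factorial * d) x := by
    intro x
    have h1 : HasDerivAt (fun s : ℝ => d * s) d x := by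
      simpa using (hasDerivAt_id x).const_mul d
    have h2 := ((h1.pow (m + 1)).const_mul M).div_const ((m + 1).factorial : ℝ)
    refine (h2.congr_deriv ?_)
    rw [hfac, Nat.add_sub_cancel]
    push_cast
    field_simp
  have hγ : ∀ x : ℝ, HasDerivAt γ (z - ζ) x := by
    intro x
    have h1 : HasDerivAt (fun s : ℝ => (s : ℂ)) 1 x := Complex.ofRealCLM.hasDerivAt
    have h2 := (h1.mul_const (z - ζ)).const_add ζ
    rw [one_mul] at h2
    exact h2
  have hGγ : ∀ x : ℝ, 0 < x → x ≤ 1 → HasDerivAt (fun s => G (γ s)) (deriv G (γ x) * (z - ζ)) x := by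
    intro x hx hx1
    have h1 : HasDerivAt G (deriv G (γ x)) (γ x) :=
      (hG.differentiableAt (isOpen_ball.mem_nhds (seg_mem hζ hz hx hx1))).hasDerivAt
    exact h1.comp x (hγ x)
  have key : ∀ a : ℝ, 0 < a → a ≤ s → ‖G (γ s)‖ ≤ ‖G (γ a)‖ + B s - B a := by
    intro a ha has
    have h1 := image_norm_le_of_norm_deriv_right_le_deriv_boundary (f := fun s => G (γ s))
      (f' := fun x => deriv G (γ x) * (z - ζ)) (a := a) (b := s)
      (B := fun x => ‖G (γ a)‖ + B x - B a) (B' := fun x => M * (d * x) ^ m / m.factorial * d)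
      (fun x hx => (hGγ x (ha.trans_le hx.1) (hx.2.trans hs1)).continuousAt.continuousWithinAt)
      (fun x hx => (hGγ x (ha.trans_le hx.1) (hx.2.le.trans hs1)).hasDerivWithinAt)
      (by simp)
      (fun x => ((hB x).const_add ‖G (γ a)‖).sub_const (B a))
      (fun x hx => by
        rw [norm_mul]
        exact mul_le_mul_of_nonneg_right (hd x (ha.trans_le hx.1) (hx.2.le.trans hs1))
          (norm_nonneg _))
    exact h1 ⟨has, le_rfl⟩
  have l1 : Tendsto γ (𝓝[>] 0) (𝓝[ball 0 1] ζ) := by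
    refine tendsto_nhdsWithin_iff.2 ⟨?_, ?_⟩
    · have h1 : Tendsto γ (𝓝 0) (𝓝 (γ 0)) := (hγ 0).continuousAt.tendsto
      have h2 : γ 0 = ζ := by simp [γ]
      rw [h2] at h1
      exact h1.mono_left nhdsWithin_le_nhds
    · have h1 : ∀ᶠ x : ℝ in 𝓝[>] 0, x ∈ Ioc (0 : ℝ) 1 := Ioc_mem_nhdsGT one_pos
      filter_upwards [h1] with x hx
      exact seg_mem hζ hz hx.1 hx.2
  have l2 : Tendsto (fun a => ‖G (γ a)‖ + B s - B a) (𝓝[>] 0) (𝓝 (‖(0 : ℂ)‖ + B s - B 0)) := by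
    refine ((h0.comp l1).norm.add_const _).sub ?_
    exact (hB 0).continuousAt.tendsto.mono_left nhdsWithin_le_nhds
  have l3 : ‖(0 : ℂ)‖ + B s - B 0 = B s := by simp [B]
  rw [l3] at l2
  refine ge_of_tendsto l2 ?_
  have h1 : ∀ᶠ x : ℝ in 𝓝[>] 0, x ∈ Ioc (0 : ℝ) s := Ioc_mem_nhdsGT hs
  filter_upwards [h1] with x hx
  exact key x hx.1 hx.2

/-- The Taylor estimate at a boundary point at which all derivatives vanish. -/
theorem taylor {F : ℂ → ℂ} (hF : DifferentiableOn ℂ F (ball 0 1)) {ζ z : ℂ} (hζ : ‖ζ‖ ≤ 1)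
    (hz : ‖z‖ < 1) (h0 : ∀ n, Tendsto (iteratedDeriv n F) (𝓝[ball 0 1] ζ) (𝓝 0)) {M : ℝ} {n : ℕ}
    (hM : ∀ w ∈ ball (0 : ℂ) 1, ‖iteratedDeriv n F w‖ ≤ M) :
    ‖F z‖ ≤ M * ‖z - ζ‖ ^ n / n.factorial := by
  have main : ∀ m k : ℕ, k + m = n → ∀ s : ℝ, 0 < s → s ≤ 1 →
      ‖iteratedDeriv k F (ζ + (s : ℂ) * (z - ζ))‖ ≤ M * (‖z - ζ‖ * s) ^ m / m.factorial := by
    intro m
    induction m with
    | zero =>
      intro k hk s hs hs1
      have : k = n := by omega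
      subst this
      simpa using hM _ (seg_mem hζ hz hs hs1)
    | succ m ih =>
      intro k hk s hs hs1
      refine step (diff_iter hF k) hζ hz (h0 k) (fun s hs hs1 => ?_) s hs hs1
      have := ih (k + 1) (by omega) s hs hs1
      rwa [iteratedDeriv_succ] at this
  have h1 := main n 0 (by omega) 1 one_pos le_rfl
  simpa using h1

/-- Optimising over the order of the Taylor estimate. -/
theorem decay {α : ℝ} (h0 : 0 < α) {C : ℝ} (hC : 1 ≤ C) {x d : ℝ} (hd : 0 < d)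
    (h : ∀ n : ℕ, x ≤ C ^ (n + 1) * (n.factorial : ℝ) ^ (1 + 1 / α) * d ^ n / n.factorial) :
    x ≤ 2 * C * Real.exp (-(Real.log 2 * (2 * C * d) ^ (-α))) := by
  have hC0 : 0 < C := by linarith
  have hCd : 0 < 2 * C * d := by positivity
  set n : ℕ := ⌊(2 * C * d) ^ (-α)⌋₊ with hn
  have h1 : (n : ℝ) ≤ (2 * C * d) ^ (-α) := Nat.floor_le (by positivity)
  have h2 : (2 * C * d) ^ (-α) < n + 1 := Nat.lt_floor_add_one _
  have h3 : (n : ℝ) ^ (1 / α) ≤ (2 * C * d)⁻¹ := by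
    have := Real.rpow_le_rpow (Nat.cast_nonneg n) h1 (by positivity : 0 ≤ 1 / α)
    refine this.trans (le_of_eq ?_)
    rw [← Real.rpow_mul hCd.le, show -α * (1 / α) = -1 by field_simp, Real.rpow_neg_one]
  have hf0 : (0 : ℝ) < n.factorial := by positivity
  have h4 : (n.factorial : ℝ) ^ (1 / α) ≤ ((n : ℝ) ^ (1 / α)) ^ n := by
    have h5 : (n.factorial : ℝ) ≤ (n : ℝ) ^ n := by exact_mod_cast Nat.factorial_le_pow n
    have h6 := Real.rpow_le_rpow hf0.le h5 (by positivity : 0 ≤ 1 / α)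
    refine h6.trans (le_of_eq ?_)
    rw [← Real.rpow_natCast, ← Real.rpow_natCast, ← Real.rpow_mul (Nat.cast_nonneg n),
      ← Real.rpow_mul (Nat.cast_nonneg n), mul_comm]
  have h5 : x ≤ C * (1 / 2) ^ n := by
    refine (h n).trans ?_
    have e : C ^ (n + 1) * (n.factorial : ℝ) ^ (1 + 1 / α) * d ^ n / n.factorial =
        C * (C * d) ^ n * (n.factorial : ℝ) ^ (1 / α) := by
      rw [Real.rpow_add hf0, Real.rpow_one, mul_pow]
      field_simp
      ring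
    rw [e]
    calc C * (C * d) ^ n * (n.factorial : ℝ) ^ (1 / α)
        ≤ C * (C * d) ^ n * ((2 * C * d)⁻¹) ^ n := by
          refine mul_le_mul_of_nonneg_left (h4.trans ?_) (by positivity)
          exact pow_le_pow_left₀ (by positivity) h3 n
      _ = C * (1 / 2) ^ n := by
          rw [mul_assoc, ← mul_pow]
          congr 2
          field_simp
  refine h5.trans ?_
  have h6 : ((1 : ℝ) / 2) ^ n = Real.exp (-(Real.log 2 * n)) := by
    rw [Real.exp_neg, mul_comm, Real.exp_nat_mul, Real.exp_log (by norm_num)]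
    simp
  have h7 : Real.exp (-(Real.log 2 * n)) ≤ 2 * Real.exp (-(Real.log 2 * (2 * C * d) ^ (-α))) := by
    have h8 : (2 : ℝ) = Real.exp (Real.log 2) := (Real.exp_log (by norm_num)).symm
    conv_rhs => rw [h8, ← Real.exp_add]
    refine Real.exp_le_exp.2 ?_
    rw [← h8]
    have := Real.log_pos (by norm_num : (1 : ℝ) < 2)
    nlinarith
  rw [h6]
  calc C * Real.exp (-(Real.log 2 * n)) ≤
        C * (2 * Real.exp (-(Real.log 2 * (2 * C * d) ^ (-α)))) :=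
        mul_le_mul_of_nonneg_left h7 hC0.le
    _ = _ := by ring

/-- The logarithmic form of the decay near a flat point. -/
theorem log_decay {α : ℝ} (h0 : 0 < α) {C : ℝ} (hC : 1 ≤ C) {F : ℂ → ℂ}
    (hF : DifferentiableOn ℂ F (ball 0 1))
    (hG : ∀ n : ℕ, ∀ z ∈ ball (0 : ℂ) 1,
      ‖iteratedDeriv n F z‖ ≤ C ^ (n + 1) * (n.factorial : ℝ) ^ (1 + 1 / α))
    {ζ z : ℂ} (hζ : ‖ζ‖ = 1) (hz : ‖z‖ < 1)
    (hflat : ∀ n, Tendsto (iteratedDeriv n F) (𝓝[ball 0 1] ζ) (𝓝 0)) (hFz : F z ≠ 0) {δ : ℝ}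
    (hδ : ‖z - ζ‖ ≤ δ) :
    Real.log ‖F z‖ ≤ Real.log (2 * C) - Real.log 2 * (2 * C) ^ (-α) * δ ^ (-α) := by
  have hC0 : 0 < C := by linarith
  have hd : 0 < ‖z - ζ‖ := by
    rw [norm_pos_iff, sub_ne_zero]
    rintro rfl
    linarith
  have h1 := decay (x := ‖F z‖) h0 hC hd fun n => taylor hF hζ.le hz hflat (hG n)
  have h2 : Real.log ‖F z‖ ≤ Real.log (2 * C) - Real.log 2 * (2 * C * ‖z - ζ‖) ^ (-α) := by
    have h3 := Real.log_le_log (norm_pos_iff.2 hFz) h1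
    rwa [Real.log_mul (by positivity) (Real.exp_pos _).ne', Real.log_exp, ← sub_eq_add_neg] at h3
  refine h2.trans ?_
  have h4 : (2 * C * δ) ^ (-α) ≤ (2 * C * ‖z - ζ‖) ^ (-α) :=
    Real.rpow_le_rpow_of_nonpos (by positivity) (by gcongr) (by linarith)
  rw [Real.mul_rpow (by positivity) (by linarith)] at h4
  have := Real.log_pos (by norm_num : (1 : ℝ) < 2)
  nlinarith

end Pool.Agent.Helper313PK
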