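import Mathlib

/-!
# The function `z ^ α + z / m` in the right half plane
-/

set_option autoImplicit false

open Complex

namespace Pool.Agent.Helper313PK

variable {α : ℝ}

theorem cpow_form {z : ℂ} (hz : z ≠ 0) :
    z ^ (α : ℂ) = ((‖z‖ ^ α : ℝ) : ℂ) * Complex.exp (((α * arg z : ℝ) : ℂ) * I) := by
  rw [cpow_def_of_ne_zero hz, Complex.log]
  have h0 : 0 < ‖z‖ := norm_pos_iff.2 hz
  rw [Real.rpow_def_of_pos h0, ofReal_exp, ← Complex.exp_add]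
  congr 1
  push_cast
  ring

theorem abs_arg_le {z : ℂ} (hz : 0 ≤ z.re) : |arg z| ≤ Real.pi / 2 :=
  Complex.abs_arg_le_pi_div_two_iff.2 hz

/-- lower bound for the real part of `z ^ α` -/
theorem re_cpow_ge (h0 : 0 < α) (h1 : α < 1) {z : ℂ} (hz : 0 ≤ z.re) :
    Real.cos (Real.pi * α / 2) * ‖z‖ ^ α ≤ (z ^ (α : ℂ)).re := by
  by_cases hz0 : z = 0
  · subst hz0
    rw [norm_zero, Real.zero_rpow h0.ne', mul_zero, zero_cpow (by exact_mod_cast h0.ne'), zero_re]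
  rw [cpow_form hz0, re_ofReal_mul, mul_comm, exp_ofReal_mul_I_re]
  refine mul_le_mul_of_nonneg_left ?_ (Real.rpow_nonneg (norm_nonneg _) _)
  rw [← Real.cos_abs (α * arg z)]
  have h2 := abs_arg_le hz
  have h3 : |α * arg z| ≤ Real.pi * α / 2 := by
    rw [abs_mul, abs_of_pos h0]
    nlinarith
  refine Real.cos_le_cos_of_nonneg_of_le_pi (abs_nonneg _) ?_ h3
  nlinarith [Real.pi_pos]

theorem cos_pos' (h0 : 0 < α) (h1 : α < 1) : 0 < Real.cos (Real.pi * α / 2) := by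
  apply Real.cos_pos_of_mem_Ioo
  constructor
  · nlinarith [Real.pi_pos]
  · nlinarith [Real.pi_pos]

theorem re_cpow_mul_conj (h0 : 0 < α) (h1 : α < 1) {z : ℂ} (hz : 0 ≤ z.re) :
    0 ≤ (z ^ (α : ℂ) * (starRingEnd ℂ) z).re := by
  by_cases hz0 : z = 0
  · subst hz0
    simp
  have h2 : (starRingEnd ℂ) z = ((‖z‖ : ℝ) : ℂ) * Complex.exp (((-arg z : ℝ) : ℂ) * I) := by
    conv_lhs => rw [← norm_mul_exp_arg_mul_I z]
    rw [map_mul, conj_ofReal, ← Complex.exp_conj, map_mul, conj_ofReal, conj_I]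
    congr 2
    push_cast
    ring
  rw [cpow_form hz0, h2]
  have h3 : ((‖z‖ ^ α : ℝ) : ℂ) * Complex.exp (((α * arg z : ℝ) : ℂ) * I) *
      (((‖z‖ : ℝ) : ℂ) * Complex.exp (((-arg z : ℝ) : ℂ) * I)) =
      ((‖z‖ ^ α * ‖z‖ : ℝ) : ℂ) * Complex.exp ((((α - 1) * arg z : ℝ) : ℂ) * I) := by
    have h4 : Complex.exp ((((α - 1) * arg z : ℝ) : ℂ) * I) =
        Complex.exp (((α * arg z : ℝ) : ℂ) * I) * Complex.exp (((-arg z : ℝ) : ℂ) * I) := by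
      rw [← Complex.exp_add]
      congr 1
      push_cast
      ring
    rw [h4]
    push_cast
    ring
  rw [h3, re_ofReal_mul, exp_ofReal_mul_I_re]
  refine mul_nonneg (mul_nonneg (Real.rpow_nonneg (norm_nonneg _) _) (norm_nonneg _)) ?_
  apply Real.cos_nonneg_of_mem_Icc
  have h5 := abs_arg_le hz
  have h6 : |(α - 1) * arg z| ≤ Real.pi / 2 := by
    rw [abs_mul, abs_of_nonpos (by linarith : α - 1 ≤ 0)]
    have := abs_nonneg (arg z)
    nlinarith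
  exact ⟨by have := (abs_le.1 h6).1; linarith, (abs_le.1 h6).2⟩

/-- Hölder continuity of `z ^ α` in the right half plane -/
theorem cpow_sub_le (h0 : 0 < α) (h1 : α < 1) {z w : ℂ} (hz : 0 ≤ z.re) (hw : 0 ≤ w.re) :
    ‖z ^ (α : ℂ) - w ^ (α : ℂ)‖ ≤ 5 * ‖z - w‖ ^ α := by
  have hd := norm_nonneg (z - w)
  rcases le_or_gt (‖z‖ / 2) ‖z - w‖ with hc | hc
  · have e1 : ‖z‖ ≤ 2 * ‖z - w‖ := by linarith
    have e2 : ‖w‖ ≤ 3 * ‖z - w‖ := by
      have : ‖w‖ ≤ ‖z‖ + ‖z - w‖ := by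
        have := norm_sub_le z (z - w)
        simpa using this
      linarith
    have f1 : ‖z‖ ^ α ≤ 2 * ‖z - w‖ ^ α := by
      calc ‖z‖ ^ α ≤ (2 * ‖z - w‖) ^ α := Real.rpow_le_rpow (norm_nonneg _) e1 h0.le
        _ = 2 ^ α * ‖z - w‖ ^ α := Real.mul_rpow (by norm_num) hd
        _ ≤ 2 * ‖z - w‖ ^ α := by
          refine mul_le_mul_of_nonneg_right ?_ (Real.rpow_nonneg hd _)
          calc (2:ℝ) ^ α ≤ 2 ^ (1:ℝ) := Real.rpow_le_rpow_of_exponent_le (by norm_num) h1.le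
            _ = 2 := Real.rpow_one _
    have f2 : ‖w‖ ^ α ≤ 3 * ‖z - w‖ ^ α := by
      calc ‖w‖ ^ α ≤ (3 * ‖z - w‖) ^ α := Real.rpow_le_rpow (norm_nonneg _) e2 h0.le
        _ = 3 ^ α * ‖z - w‖ ^ α := Real.mul_rpow (by norm_num) hd
        _ ≤ 3 * ‖z - w‖ ^ α := by
          refine mul_le_mul_of_nonneg_right ?_ (Real.rpow_nonneg hd _)
          calc (3:ℝ) ^ α ≤ 3 ^ (1:ℝ) := Real.rpow_le_rpow_of_exponent_le (by norm_num) h1.le
            _ = 3 := Real.rpow_one _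
    calc ‖z ^ (α : ℂ) - w ^ (α : ℂ)‖ ≤ ‖z ^ (α : ℂ)‖ + ‖w ^ (α : ℂ)‖ := norm_sub_le _ _
      _ = ‖z‖ ^ α + ‖w‖ ^ α := by rw [norm_cpow_real, norm_cpow_real]
      _ ≤ _ := by linarith
  · by_cases hzw : z = w
    · subst hzw
      simp
      positivity
    have hδ : 0 < ‖z - w‖ := norm_pos_iff.2 (sub_ne_zero.2 hzw)
    -- the segment
    have hseg : ∀ x ∈ segment ℝ w z, 0 ≤ x.re ∧ ‖z - w‖ ≤ ‖x‖ := by
      rintro x ⟨a, b, ha, hb, hab, rfl⟩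
      constructor
      · simp only [real_smul, add_re, re_ofReal_mul]
        positivity
      · have h3 : z - (a • w + b • z) = (a : ℂ) * (z - w) := by
          simp only [real_smul]
          have hb' : b = 1 - a := by linarith
          rw [hb']; push_cast; ring
        have h4 : ‖z - (a • w + b • z)‖ ≤ ‖z - w‖ := by
          rw [h3, norm_mul, norm_real, Real.norm_eq_abs, abs_of_nonneg ha]
          have : a ≤ 1 := by linarith
          nlinarith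
        have h5 : ‖z‖ ≤ ‖a • w + b • z‖ + ‖z - (a • w + b • z)‖ := by
          have := norm_add_le (a • w + b • z) (z - (a • w + b • z))
          simpa using this
        linarith
    have hder : ∀ x ∈ segment ℝ w z, HasDerivWithinAt (fun y : ℂ => y ^ (α : ℂ))
        ((α : ℂ) * x ^ ((α : ℂ) - 1)) (segment ℝ w z) x := by
      intro x hx
      obtain ⟨hx1, hx2⟩ := hseg x hx
      have hx0 : x ≠ 0 := by
        intro h
        rw [h, norm_zero] at hx2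
        linarith
      have hsl : x ∈ slitPlane := by
        rw [mem_slitPlane_iff]
        rcases hx1.lt_or_eq with h | h
        · left; exact h
        · right
          intro h'
          exact hx0 (Complex.ext h.symm h')
      have := (hasDerivAt_id x).cpow_const (c := (α : ℂ)) hsl
      simpa using this.hasDerivWithinAt
    have hbd : ∀ x ∈ segment ℝ w z, ‖(α : ℂ) * x ^ ((α : ℂ) - 1)‖ ≤ ‖z - w‖ ^ (α - 1) := by
      intro x hx
      obtain ⟨hx1, hx2⟩ := hseg x hx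
      have e : ((α : ℂ) - 1) = ((α - 1 : ℝ) : ℂ) := by push_cast; ring
      rw [norm_mul, norm_real, Real.norm_eq_abs, abs_of_pos h0, e, norm_cpow_real]
      have h3 : ‖x‖ ^ (α - 1) ≤ ‖z - w‖ ^ (α - 1) :=
        Real.rpow_le_rpow_of_nonpos hδ hx2 (by linarith)
      have h4 : 0 ≤ ‖x‖ ^ (α - 1) := Real.rpow_nonneg (norm_nonneg _) _
      nlinarith
    have hmv := (convex_segment w z).norm_image_sub_le_of_norm_hasDerivWithin_le (𝕜 := ℂ)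
      (f := fun y : ℂ => y ^ (α : ℂ)) hder hbd (left_mem_segment ℝ w z) (right_mem_segment ℝ w z)
    refine hmv.trans ?_
    have e2 : ‖z - w‖ ^ (α - 1) * ‖z - w‖ = ‖z - w‖ ^ α := by
      rw [← Real.rpow_add_one hδ.ne']
      congr 1
      ring
    rw [e2]
    have : 0 ≤ ‖z - w‖ ^ α := Real.rpow_nonneg hd _
    linarith

/-- the function `z ^ α + z / m` -/
noncomputable def HH (α m : ℝ) (z : ℂ) : ℂ := z ^ (α : ℂ) + z / (m : ℂ)

theorem HH_re (h0 : 0 < α) (h1 : α < 1) {m : ℝ} (hm : 0 < m) {z : ℂ} (hz : 0 ≤ z.re) :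
    Real.cos (Real.pi * α / 2) * ‖z‖ ^ α ≤ (HH α m z).re := by
  unfold HH
  have h2 := re_cpow_ge h0 h1 hz
  have h3 : 0 ≤ (z / (m : ℂ)).re := by
    rw [div_ofReal_re]
    positivity
  rw [add_re]
  linarith

theorem HH_sq (h0 : 0 < α) (h1 : α < 1) {m : ℝ} (hm : 0 < m) {z : ℂ} (hz : 0 ≤ z.re) :
    (‖z‖ ^ α) ^ 2 + (‖z‖ / m) ^ 2 ≤ ‖HH α m z‖ ^ 2 := by
  unfold HH
  have e1 : ‖z ^ (α : ℂ)‖ = ‖z‖ ^ α := norm_cpow_real _ _
  have e2 : ‖z / (m : ℂ)‖ = ‖z‖ / m := by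
    rw [norm_div, norm_real, Real.norm_eq_abs, abs_of_pos hm]
  rw [← e1, ← e2, Complex.sq_norm, Complex.sq_norm, Complex.sq_norm, normSq_add]
  have h3 : 0 ≤ (z ^ (α : ℂ) * (starRingEnd ℂ) (z / (m : ℂ))).re := by
    have e3 : z ^ (α : ℂ) * (starRingEnd ℂ) (z / (m : ℂ)) =
        ((1 / m : ℝ) : ℂ) * (z ^ (α : ℂ) * (starRingEnd ℂ) z) := by
      rw [map_div₀, conj_ofReal]
      push_cast
      ring
    rw [e3, re_ofReal_mul]
    exact mul_nonneg (by positivity) (re_cpow_mul_conj h0 h1 hz)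
  linarith

theorem HH_ge1 (h0 : 0 < α) (h1 : α < 1) {m : ℝ} (hm : 0 < m) {z : ℂ} (hz : 0 ≤ z.re) :
    ‖z‖ ^ α ≤ ‖HH α m z‖ := by
  have := HH_sq h0 h1 hm hz
  refine abs_le_of_sq_le_sq' ?_ (norm_nonneg _) |>.2
  nlinarith [sq_nonneg (‖z‖ / m)]

theorem HH_ge2 (h0 : 0 < α) (h1 : α < 1) {m : ℝ} (hm : 0 < m) {z : ℂ} (hz : 0 ≤ z.re) :
    ‖z‖ / m ≤ ‖HH α m z‖ := by
  have := HH_sq h0 h1 hm hz
  refine abs_le_of_sq_le_sq' ?_ (norm_nonneg _) |>.2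
  nlinarith [sq_nonneg (‖z‖ ^ α)]

theorem HH_ne (h0 : 0 < α) (h1 : α < 1) {m : ℝ} (hm : 0 < m) {z : ℂ} (hz : 0 ≤ z.re)
    (hz0 : z ≠ 0) : HH α m z ≠ 0 := by
  intro h
  have h2 := HH_ge2 h0 h1 hm hz
  rw [h, norm_zero] at h2
  have : 0 < ‖z‖ / m := div_pos (norm_pos_iff.2 hz0) hm
  linarith

theorem HH_le (h0 : 0 < α) (h1 : α < 1) {r : ℝ} (hr : 0 < r) {z : ℂ}
    (hzr : ‖z‖ ≤ r) : ‖HH α (r ^ (1 - α)) z‖ ≤ 2 * ‖z‖ ^ α := by
  unfold HH
  have e1 : ‖z ^ (α : ℂ)‖ = ‖z‖ ^ α := norm_cpow_real _ _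
  have hm : 0 < r ^ (1 - α) := Real.rpow_pos_of_pos hr _
  have e2 : ‖z / ((r ^ (1 - α) : ℝ) : ℂ)‖ = ‖z‖ / r ^ (1 - α) := by
    rw [norm_div, norm_real, Real.norm_eq_abs, abs_of_pos hm]
  have h2 : ‖z‖ / r ^ (1 - α) ≤ ‖z‖ ^ α := by
    rw [div_le_iff₀ hm]
    by_cases hz0 : z = 0
    · subst hz0
      rw [norm_zero, Real.zero_rpow h0.ne', zero_mul]
    have hz1 : 0 < ‖z‖ := norm_pos_iff.2 hz0
    calc ‖z‖ = ‖z‖ ^ α * ‖z‖ ^ (1 - α) := by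
          rw [← Real.rpow_add hz1]
          simp
      _ ≤ ‖z‖ ^ α * r ^ (1 - α) := by
          refine mul_le_mul_of_nonneg_left ?_ (Real.rpow_nonneg (norm_nonneg _) _)
          exact Real.rpow_le_rpow (norm_nonneg _) hzr (by linarith)
  calc ‖z ^ (α : ℂ) + z / ((r ^ (1 - α) : ℝ) : ℂ)‖
      ≤ ‖z ^ (α : ℂ)‖ + ‖z / ((r ^ (1 - α) : ℝ) : ℂ)‖ := norm_add_le _ _
    _ ≤ _ := by rw [e1, e2]; linarith

theorem HH_sub (h0 : 0 < α) (h1 : α < 1) {m : ℝ} (hm : 0 < m) {z w : ℂ} (hz : 0 ≤ z.re)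
    (hw : 0 ≤ w.re) : ‖HH α m z - HH α m w‖ ≤ 5 * ‖z - w‖ ^ α + ‖z - w‖ / m := by
  unfold HH
  have e : z ^ (α : ℂ) + z / (m : ℂ) - (w ^ (α : ℂ) + w / (m : ℂ)) =
      (z ^ (α : ℂ) - w ^ (α : ℂ)) + (z - w) / (m : ℂ) := by ring
  rw [e]
  refine (norm_add_le _ _).trans ?_
  have h2 := cpow_sub_le h0 h1 hz hw
  have e2 : ‖(z - w) / (m : ℂ)‖ = ‖z - w‖ / m := by
    rw [norm_div, norm_real, Real.norm_eq_abs, abs_of_pos hm]
  rw [e2]
  linarith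

end Pool.Agent.Helper313PK
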