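import Pool.Agent.Helper313PK.Gev

/-!
# Jensen's inequality and the contradiction
-/

set_option autoImplicit false

open Complex Metric Filter Topology Set

namespace Pool.Agent.Helper313PK

theorem jensen_lower {F : ℂ → ℂ} (hF : DifferentiableOn ℂ F (ball 0 1)) :
    ∃ K : ℝ, ∀ r : ℝ, 1 / 2 ≤ r → r < 1 →
      -K ≤ Real.circleAverage (fun z => Real.log ‖F z‖) 0 r := by
  have hA : AnalyticOnNhd ℂ F (ball 0 1) := hF.analyticOnNhd isOpen_ball
  refine ⟨((meromorphicOrderAt F 0).untop₀ : ℝ) * Real.log 2 -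
    Real.log ‖meromorphicTrailingCoeffAt F 0‖, fun r h1 h2 => ?_⟩
  have hr : 0 < r := by linarith
  have hsub : closedBall (0 : ℂ) |r| ⊆ ball 0 1 := by
    rw [abs_of_pos hr]; exact closedBall_subset_ball h2
  have hA' : AnalyticOnNhd ℂ F (closedBall 0 |r|) := hA.mono hsub
  rw [hA'.meromorphicOn.circleAverage_log_norm hr.ne']
  have hd := MeromorphicOn.AnalyticOnNhd.divisor_nonneg hA'
  have hs : 0 ≤ ∑ᶠ u, (MeromorphicOn.divisor F (closedBall 0 |r|) u : ℝ) *
      Real.log (r * ‖(0 : ℂ) - u‖⁻¹) := by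
    refine finsum_nonneg fun u => ?_
    by_cases hu : u ∈ closedBall (0 : ℂ) |r|
    · refine mul_nonneg (by exact_mod_cast hd u) ?_
      by_cases hu0 : u = 0
      · simp [hu0]
      · refine Real.log_nonneg ?_
        rw [mem_closedBall_zero_iff, abs_of_pos hr] at hu
        rw [zero_sub, norm_neg, ← div_eq_mul_inv, le_div_iff₀ (norm_pos_iff.2 hu0), one_mul]
        exact hu
    · have : MeromorphicOn.divisor F (closedBall 0 |r|) u = 0 :=
        (MeromorphicOn.divisor F (closedBall 0 |r|)).apply_eq_zero_of_notMem hu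
      rw [this]
      simp
  have h0 : (0 : ℂ) ∈ closedBall (0 : ℂ) |r| := by simp
  have hd0 : (0 : ℝ) ≤ ((meromorphicOrderAt F 0).untop₀ : ℝ) := by
    have := hd 0
    rw [hA'.meromorphicOn.divisor_apply h0] at this
    exact_mod_cast this
  rw [hA'.meromorphicOn.divisor_apply h0]
  have hl : -Real.log 2 ≤ Real.log r := by
    have h3 := Real.log_le_log (by norm_num) h1
    rwa [one_div, Real.log_inv] at h3
  nlinarith

/-- The zeros of `F` do not matter for circle averages. -/
theorem average_le {F : ℂ → ℂ} (hF : DifferentiableOn ℂ F (ball 0 1)) {w : ℂ}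
    (hw : w ∈ ball (0 : ℂ) 1) (hFw : F w ≠ 0) {r : ℝ} (h1 : 1 / 2 ≤ r) (h2 : r < 1) {h : ℝ → ℝ}
    (hi : IntervalIntegrable h MeasureTheory.volume 0 (2 * Real.pi)) {B : ℝ} (hB : ∀ t, -B ≤ h t)
    (hh : ∀ t, F (circleMap 0 r t) ≠ 0 → Real.log ‖F (circleMap 0 r t)‖ ≤ h t) :
    Real.circleAverage (fun z => Real.log ‖F z‖) 0 r ≤
      (2 * Real.pi)⁻¹ * ∫ t in (0 : ℝ)..(2 * Real.pi), h t := by
  classical
  have hA : AnalyticOnNhd ℂ F (ball 0 1) := hF.analyticOnNhd isOpen_ball
  have hr : 0 < r := by linarith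
  have hsub : sphere (0 : ℂ) |r| ⊆ ball 0 1 := by
    rw [abs_of_pos hr]; exact sphere_subset_closedBall.trans (closedBall_subset_ball h2)
  have hc : F ⁻¹' {0}ᶜ ∈ codiscreteWithin (ball (0 : ℂ) 1) :=
    hA.preimage_zero_mem_codiscreteWithin hFw hw ⟨⟨w, hw⟩, (convex_ball _ _).isPreconnected⟩
  let g : ℂ → ℝ := fun z => if F z = 0 then -B else Real.log ‖F z‖
  have he : (fun z => Real.log ‖F z‖) =ᶠ[codiscreteWithin (sphere (0 : ℂ) |r|)] g := by
    filter_upwards [codiscreteWithin_mono hsub hc] with z hz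
    have : F z ≠ 0 := hz
    simp [g, this]
  have hi0 : CircleIntegrable (fun z => Real.log ‖F z‖) 0 r :=
    (hA.mono hsub).meromorphicOn.circleIntegrable_log_norm
  have hig : CircleIntegrable g 0 r := hi0.congr_codiscreteWithin he
  rw [Real.circleAverage_congr_codiscreteWithin he hr.ne', Real.circleAverage_def, smul_eq_mul]
  refine mul_le_mul_of_nonneg_left ?_ (by positivity)
  refine intervalIntegral.integral_mono_on (by positivity) hig hi fun t _ => ?_
  simp only [g]
  split_ifs with h3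
  · exact hB t
  · exact hh t h3

end Pool.Agent.Helper313PK
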