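import Pool.Agent.Helper313PK.Peak2

/-!
# The set is closed, and a peak set
-/

set_option autoImplicit false

open Complex Finset ComplexConjugate Metric

namespace Pool.Agent.Helper313PK

variable {α : ℝ}

theorem ss_anti {k l : ℕ} (h : k ≤ l) : ss l ≤ ss k := by
  unfold ss
  exact pow_le_pow_of_le_one (by norm_num) (by norm_num) (by omega)

theorem exists_ss_lt {ε : ℝ} (hε : 0 < ε) : ∃ n, ss n < ε := by
  obtain ⟨n, hn⟩ := exists_pow_lt_of_lt_one hε (by norm_num : (1 / 16 : ℝ) < 1)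
  refine ⟨n, lt_of_le_of_lt ?_ hn⟩
  unfold ss
  exact pow_le_pow_of_le_one (by norm_num) (by norm_num) (by omega)

/-- the set is closed -/
theorem EE_closed : IsClosed (EE α) := by
  let F : ℕ → Set ℂ := fun n => {z | z = 1 ∨ ∃ k j, k < n ∧ j < NN α k ∧ z = pt α k j}
  have hF : ∀ n, (F n).Finite := by
    intro n
    have h1 : F n ⊆ {1} ∪ ⋃ k ∈ Set.Iio n, (fun j => pt α k j) '' Set.Iio (NN α k) := by
      rintro z (rfl | ⟨k, j, hk, hj, rfl⟩)
      · exact Or.inl rfl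
      · right
        simp only [Set.mem_iUnion]
        exact ⟨k, hk, j, hj, rfl⟩
    refine Set.Finite.subset ?_ h1
    refine (Set.finite_singleton _).union ?_
    exact (Set.finite_Iio n).biUnion fun k _ => (Set.finite_Iio _).image _
  have e : EE α = ⋂ n, (F n ∪ closedBall 1 (2 * ss n)) := by
    ext z
    simp only [Set.mem_iInter]
    constructor
    · rintro (rfl | ⟨k, j, hj, rfl⟩) n
      · exact Or.inl (Or.inl rfl)
      · rcases Nat.lt_or_ge k n with h | h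
        · exact Or.inl (Or.inr ⟨k, j, h, hj, rfl⟩)
        · right
          rw [mem_closedBall, dist_comm, dist_eq_norm]
          have := (pt_one hj).2
          have := ss_anti h
          linarith
    · intro h
      by_cases hz : z = 1
      · exact Or.inl hz
      have hp : 0 < dist z 1 := dist_pos.2 hz
      obtain ⟨n, hn⟩ := exists_ss_lt (ε := dist z 1 / 2) (by positivity)
      rcases h n with h | h
      · rcases h with h | ⟨k, j, -, hj, h⟩
        · exact Or.inl h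
        · exact Or.inr ⟨k, j, hj, h⟩
      · exfalso
        rw [mem_closedBall] at h
        linarith
  rw [e]
  exact isClosed_iInter fun n => (hF n).isClosed.union isClosed_closedBall

theorem HH_diff {m : ℝ} {z : ℂ} (hz : 0 < z.re) : DifferentiableAt ℂ (HH α m) z := by
  unfold HH
  have h1 : DifferentiableAt ℂ (fun z : ℂ => z ^ (α : ℂ)) z :=
    differentiableAt_id.cpow (differentiableAt_const _) (Or.inl hz)
  exact h1.add (differentiableAt_id.div_const _)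

theorem re_aux_pos {k j : ℕ} {ζ : ℂ} (hζ : ‖ζ‖ < 1) : 0 < (1 - ζ * conj (pt α k j)).re := by
  have h1 : (ζ * conj (pt α k j)).re ≤ ‖ζ * conj (pt α k j)‖ := re_le_norm _
  rw [norm_mul, RCLike.norm_conj, pt_norm, mul_one] at h1
  rw [sub_re, one_re]
  linarith

theorem not_mem_of_lt {ζ : ℂ} (hζ : ‖ζ‖ < 1) : ζ ∉ EE α := fun h => by
  rw [EE_norm h] at hζ
  exact lt_irrefl _ hζ

theorem GG_diff (h0 : 0 < α) (h1 : α < 1) {k j : ℕ} {ζ : ℂ} (hζ : ‖ζ‖ < 1) (hj : j < NN α k) :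
    DifferentiableAt ℂ (GG α k j) ζ := by
  have hre := re_aux_pos (α := α) (k := k) (j := j) hζ
  have hne := HH_ne h0 h1 (mm_pos (α := α) k) hre.le (ne_aux (ne_pt (not_mem_of_lt hζ) hj))
  have h2 : DifferentiableAt ℂ (fun ζ : ℂ => 1 - ζ * conj (pt α k j)) ζ := by fun_prop
  have h3 : DifferentiableAt ℂ (fun ζ : ℂ => HH α (mm α k) (1 - ζ * conj (pt α k j))) ζ :=
    DifferentiableAt.comp ζ (HH_diff hre) h2
  exact h3.inv hne

theorem gg_diff (h0 : 0 < α) (h1 : α < 1) (K : ℝ) {ζ : ℂ} (hζ : ‖ζ‖ < 1) :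
    DifferentiableAt ℂ (gg α K) ζ := by
  obtain ⟨ρ, hρ, hρ1⟩ := exists_between hζ
  have hρ0 : 0 < 1 - ρ := by linarith
  have hd : DifferentiableOn ℂ (fun ζ => ∑' k, BB α k ζ) (ball 0 ρ) := by
    refine differentiableOn_tsum_of_summable_norm
      ((summable_NNmm h0 h1).mul_left (1 / (1 - ρ))) (fun k => ?_) isOpen_ball (fun k w hw => ?_)
    · intro w hw
      rw [mem_ball_zero_iff] at hw
      have : DifferentiableAt ℂ (BB α k) w := by
        unfold BB
        exact DifferentiableAt.fun_sum fun j hj =>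
          GG_diff h0 h1 (hw.trans hρ1) (mem_range.1 hj)
      exact this.differentiableWithinAt
    · rw [mem_ball_zero_iff] at hw
      have hw1 : ‖w‖ < 1 := hw.trans hρ1
      refine (BB_le k w).trans ?_
      have h2 : ∀ j ∈ range (NN α k), ‖GG α k j w‖ ≤ mm α k / (1 - ρ) := by
        intro j hj
        refine (GG_le1 h0 h1 hw1.le (ne_pt (not_mem_of_lt hw1) (mem_range.1 hj))).trans ?_
        refine div_le_div_of_nonneg_left (mm_pos k).le hρ0 ?_
        have h3 := norm_sub_norm_le (pt α k j) w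
        rw [pt_norm, norm_sub_rev] at h3
        linarith
      refine (sum_le_sum h2).trans (le_of_eq ?_)
      rw [sum_const, card_range, nsmul_eq_mul]
      ring
  have h2 : DifferentiableAt ℂ (fun ζ => ∑' k, BB α k ζ) ζ :=
    hd.differentiableAt (isOpen_ball.mem_nhds (by rw [mem_ball_zero_iff]; exact hρ))
  have hne : (1 : ℂ) - ζ ≠ 0 := sub_ne_zero.2 (ne_one (not_mem_of_lt (α := α) hζ)).symm
  have h3 : DifferentiableAt ℂ (fun ζ : ℂ => (K : ℂ) / (1 - ζ)) ζ :=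
    (differentiableAt_const _).div ((differentiableAt_const _).sub differentiableAt_id) hne
  exact h3.add h2

theorem hh_re (h0 : 0 < α) (h1 : α < 1) {K : ℝ} (hK : 0 < K) {ζ : ℂ} (hζ : ‖ζ‖ ≤ 1) :
    0 ≤ (hh α K ζ).re ∧ (ζ ∉ EE α → 0 < (hh α K ζ).re) := by
  have h2 : ζ ∉ EE α → 0 < (hh α K ζ).re := by
    intro h
    rw [hh_not_mem h, re_inv']
    have h3 := gg_re_pos h0 h1 hK hζ h
    have h4 : 0 < ‖gg α K ζ‖ := norm_pos_iff.2 (gg_ne h0 h1 hK hζ h)
    positivity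
  refine ⟨?_, h2⟩
  by_cases h : ζ ∈ EE α
  · rw [hh_mem h, zero_re]
  · exact (h2 h).le

/-- the peak function -/
theorem exists_peak (h0 : 0 < α) (h1 : α < 1) : ∃ f : ℂ → ℂ, DifferentiableOn ℂ f (ball 0 1) ∧
    (∃ C : ℝ, ∀ ζ ∈ closedBall (0 : ℂ) 1, ∀ ζ' ∈ closedBall (0 : ℂ) 1,
      ‖f ζ - f ζ'‖ ≤ C * ‖ζ - ζ'‖ ^ α) ∧ (∀ ζ ∈ EE α, f ζ = 1) ∧
    ∀ ζ ∈ closedBall (0 : ℂ) 1, ζ ∉ EE α → ‖f ζ‖ < 1 := by
  obtain ⟨K, C, hK, hC, hh'⟩ := hh_holder h0 h1
  have hone : ∀ ζ : ℂ, ‖ζ‖ ≤ 1 → 1 ≤ ‖1 + hh α K ζ‖ := by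
    intro ζ hζ
    have h2 := (hh_re h0 h1 hK hζ).1
    have h3 : (1 + hh α K ζ).re ≤ ‖1 + hh α K ζ‖ := re_le_norm _
    rw [add_re, one_re] at h3
    linarith
  refine ⟨fun ζ => (1 + hh α K ζ)⁻¹, ?_, ⟨C, ?_⟩, ?_, ?_⟩
  · intro ζ hζ
    rw [mem_ball_zero_iff] at hζ
    have h2 : (fun ζ => (1 + hh α K ζ)⁻¹) =ᶠ[nhds ζ] fun ζ => (1 + (gg α K ζ)⁻¹)⁻¹ := by
      filter_upwards [isOpen_ball.mem_nhds (mem_ball_zero_iff.2 hζ)] with w hw
      rw [mem_ball_zero_iff] at hw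
      rw [hh_not_mem (not_mem_of_lt hw)]
    have h3 : DifferentiableAt ℂ (fun ζ => (1 + (gg α K ζ)⁻¹)⁻¹) ζ := by
      have h4 := (gg_diff h0 h1 K hζ).inv (gg_ne h0 h1 hK hζ.le (not_mem_of_lt hζ))
      refine ((differentiableAt_const (1 : ℂ)).add h4).inv ?_
      have h5 := hone ζ hζ.le
      rw [hh_not_mem (not_mem_of_lt hζ)] at h5
      intro h6
      have h7 : (1 : ℂ) + (gg α K ζ)⁻¹ = 0 := h6
      rw [h7, norm_zero] at h5
      linarith
    exact (h2.differentiableAt_iff.2 h3).differentiableWithinAt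
  · intro ζ hζ ζ' hζ'
    rw [mem_closedBall_zero_iff] at hζ hζ'
    have n1 := hone ζ hζ
    have n2 := hone ζ' hζ'
    have m1 : 1 + hh α K ζ ≠ 0 := norm_pos_iff.1 (by linarith)
    have m2 : 1 + hh α K ζ' ≠ 0 := norm_pos_iff.1 (by linarith)
    have e : (1 + hh α K ζ)⁻¹ - (1 + hh α K ζ')⁻¹ =
        -(hh α K ζ - hh α K ζ') / ((1 + hh α K ζ) * (1 + hh α K ζ')) := by
      field_simp
      ring
    change ‖(1 + hh α K ζ)⁻¹ - (1 + hh α K ζ')⁻¹‖ ≤ _
    rw [e, norm_div, norm_neg, norm_mul]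
    refine (div_le_self (norm_nonneg _) ?_).trans (hh' ζ ζ' hζ hζ')
    nlinarith
  · intro ζ hζ
    change (1 + hh α K ζ)⁻¹ = 1
    rw [hh_mem hζ, add_zero, inv_one]
  · intro ζ hζ hE
    rw [mem_closedBall_zero_iff] at hζ
    have h2 := (hh_re h0 h1 hK hζ).2 hE
    have h3 : (1 + hh α K ζ).re ≤ ‖1 + hh α K ζ‖ := re_le_norm _
    rw [add_re, one_re] at h3
    change ‖(1 + hh α K ζ)⁻¹‖ < 1
    rw [norm_inv]
    exact inv_lt_one_of_one_lt₀ (by linarith)

end Pool.Agent.Helper313PK
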