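import Pool.Agent.Helper313PK.Jens
import Pool.Agent.Helper313PK.Peak3

/-!
# The set is not a zero set of the Gevrey class
-/

set_option autoImplicit false

open Complex Metric Filter Topology Set

namespace Pool.Agent.Helper313PK

variable {α : ℝ}

/-- points of the block are close to points of the set -/
theorem exists_near {k : ℕ} {t : ℝ} (ht : t ∈ Ico (ss k) (2 * ss k)) :
    ∃ j, j < NN α k ∧ |t - th α k j| ≤ ss k / NN α k := by
  have hs := ss_pos k
  have hN := NN_posR (α := α) k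
  set u : ℝ := t / ss k - 1 with hu
  have hu0 : 0 ≤ u := by
    rw [hu, sub_nonneg, le_div_iff₀ hs]; linarith [ht.1]
  have hu1 : u < 1 := by
    have : t / ss k < 2 := by rw [div_lt_iff₀ hs]; exact ht.2
    linarith
  have htu : t = ss k * (1 + u) := by rw [hu]; field_simp; ring
  refine ⟨⌊u * NN α k⌋₊, ?_, ?_⟩
  · rw [Nat.floor_lt (by positivity)]
    nlinarith
  · have h1 : (⌊u * NN α k⌋₊ : ℝ) ≤ u * NN α k := Nat.floor_le (by positivity)
    have h2 : u * NN α k < ⌊u * NN α k⌋₊ + 1 := Nat.lt_floor_add_one _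
    unfold th
    have e : t - ss k * (1 + (⌊u * NN α k⌋₊ : ℝ) / NN α k) =
        ss k / NN α k * (u * NN α k - ⌊u * NN α k⌋₊) := by
      rw [htu]; field_simp; ring
    rw [e, abs_of_nonneg (mul_nonneg (by positivity) (by linarith))]
    have h3 : 0 < ss k / NN α k := by positivity
    nlinarith

theorem near_pt {k : ℕ} {t : ℝ} (ht : t ∈ Ico (ss k) (2 * ss k)) :
    ∃ ζ ∈ EE α, ‖Complex.exp (t * I) - ζ‖ ≤ ss k / NN α k := by
  obtain ⟨j, hj, h⟩ := exists_near (α := α) ht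
  exact ⟨pt α k j, Or.inr ⟨k, j, hj, rfl⟩, (chord_le t (th α k j)).trans h⟩

theorem circle_dist {t r δ : ℝ} {ζ : ℂ} (hr : r < 1) (hδ : 1 - r ≤ δ)
    (h : ‖Complex.exp (t * I) - ζ‖ ≤ δ) : ‖circleMap 0 r t - ζ‖ ≤ 2 * δ := by
  have e : circleMap 0 r t - ζ = -((1 - r : ℝ) : ℂ) * Complex.exp (t * I) +
      (Complex.exp (t * I) - ζ) := by
    rw [circleMap]
    push_cast
    ring
  rw [e]
  have h2 : ‖-((1 - r : ℝ) : ℂ) * Complex.exp (t * I)‖ = 1 - r := by
    rw [norm_mul, norm_neg, norm_real, Real.norm_eq_abs, abs_of_pos (by linarith),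
      norm_exp_ofReal_mul_I, mul_one]
  have h3 := norm_add_le (-((1 - r : ℝ) : ℂ) * Complex.exp (t * I))
    (Complex.exp (t * I) - ζ)
  linarith

theorem blocks_disjoint {k l : ℕ} {t : ℝ} (hk : t ∈ Ico (ss k) (2 * ss k))
    (hl : t ∈ Ico (ss l) (2 * ss l)) : k = l := by
  rcases lt_trichotomy k l with h | h | h
  · have := ss_lt h
    have := ss_pos l
    linarith [hk.1, hl.2]
  · exact h
  · have := ss_lt h
    have := ss_pos k
    linarith [hl.1, hk.2]

/-- the comparison function -/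
noncomputable def cmp (L : ℝ) (a : ℕ → ℝ) (n : ℕ) (t : ℝ) : ℝ :=
  L - ∑ k ∈ Finset.range n, (Ico (ss k) (2 * ss k)).indicator (fun _ => a k) t

theorem cmp_ge (L : ℝ) {a : ℕ → ℝ} (ha : ∀ k, 0 ≤ a k) (n : ℕ) (t : ℝ) :
    -(∑ k ∈ Finset.range n, a k - L) ≤ cmp L a n t := by
  have : ∑ k ∈ Finset.range n, (Ico (ss k) (2 * ss k)).indicator (fun _ => a k) t ≤
      ∑ k ∈ Finset.range n, a k := by
    refine Finset.sum_le_sum fun k _ => ?_
    exact indicator_le_self' (fun _ _ => ha k) t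
  unfold cmp
  linarith

theorem cmp_bound {L x : ℝ} {a : ℕ → ℝ} {n : ℕ} {t : ℝ} (h1 : x ≤ L)
    (h2 : ∀ k < n, t ∈ Ico (ss k) (2 * ss k) → x ≤ L - a k) : x ≤ cmp L a n t := by
  unfold cmp
  by_cases h : ∃ k < n, t ∈ Ico (ss k) (2 * ss k)
  · obtain ⟨k, hk, ht⟩ := h
    rw [Finset.sum_eq_single k]
    · rw [indicator_of_mem ht]
      exact h2 k hk ht
    · intro l _ hl
      exact indicator_of_notMem (fun h => hl (blocks_disjoint h ht)) _
    · intro h
      exact absurd (Finset.mem_range.2 hk) h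
  · push Not at h
    rw [Finset.sum_eq_zero]
    · linarith
    · intro k hk
      exact indicator_of_notMem (h k (Finset.mem_range.1 hk)) _

theorem ind_int (k : ℕ) (a : ℝ) : IntervalIntegrable
    (fun t => (Ico (ss k) (2 * ss k)).indicator (fun _ => a) t) MeasureTheory.volume
      0 (2 * Real.pi) := by
  rw [intervalIntegrable_iff_integrableOn_Ioc_of_le (by positivity)]
  have h : MeasureTheory.IntegrableOn (fun _ : ℝ => a) (Ioc 0 (2 * Real.pi)) :=
    continuous_const.integrableOn_Ioc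
  exact h.indicator measurableSet_Ico

theorem sum_int (a : ℕ → ℝ) (n : ℕ) : IntervalIntegrable
    (fun t => ∑ k ∈ Finset.range n, (Ico (ss k) (2 * ss k)).indicator (fun _ => a k) t)
      MeasureTheory.volume 0 (2 * Real.pi) := by
  have := IntervalIntegrable.sum (Finset.range n) (μ := MeasureTheory.volume) (a := 0)
    (b := 2 * Real.pi) (f := fun k t => (Ico (ss k) (2 * ss k)).indicator (fun _ => a k) t)
    (fun k _ => ind_int k (a k))
  rwa [Finset.sum_fn] at this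

theorem ind_integral (k : ℕ) (a : ℝ) :
    ∫ t in (0 : ℝ)..(2 * Real.pi), (Ico (ss k) (2 * ss k)).indicator (fun _ => a) t =
      ss k * a := by
  have hs := ss_pos k
  have hs' := ss_le k
  rw [intervalIntegral.integral_of_le (by positivity),
    MeasureTheory.integral_indicator measurableSet_Ico,
    MeasureTheory.Measure.restrict_restrict measurableSet_Ico]
  have e : Ico (ss k) (2 * ss k) ∩ Ioc 0 (2 * Real.pi) = Ico (ss k) (2 * ss k) := by
    refine inter_eq_left.2 fun t ht => ⟨by linarith [ht.1], ?_⟩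
    have := Real.pi_gt_three
    linarith [ht.2]
  rw [e, MeasureTheory.setIntegral_const, Real.volume_real_Ico_of_le (by linarith)]
  rw [smul_eq_mul]
  ring

theorem cmp_int (L : ℝ) (a : ℕ → ℝ) (n : ℕ) :
    IntervalIntegrable (cmp L a n) MeasureTheory.volume 0 (2 * Real.pi) := by
  unfold cmp
  exact intervalIntegrable_const.sub (sum_int a n)

theorem cmp_integral (L : ℝ) (a : ℕ → ℝ) (n : ℕ) :
    (2 * Real.pi)⁻¹ * ∫ t in (0 : ℝ)..(2 * Real.pi), cmp L a n t =
      L - (2 * Real.pi)⁻¹ * ∑ k ∈ Finset.range n, ss k * a k := by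
  have hpi := Real.pi_pos
  unfold cmp
  rw [intervalIntegral.integral_sub intervalIntegrable_const (sum_int a n),
    intervalIntegral.integral_finsetSum (fun k _ => ind_int k (a k))]
  simp only [ind_integral, intervalIntegral.integral_const, smul_eq_mul]
  field_simp
  ring

theorem exists_delta {δ : ℕ → ℝ} (hδ : ∀ k, 0 < δ k) (n : ℕ) :
    ∃ ε : ℝ, 0 < ε ∧ ε ≤ 1 / 2 ∧ ∀ k < n, ε ≤ δ k := by
  induction n with
  | zero => exact ⟨1 / 2, by norm_num, le_rfl, fun k hk => absurd hk (Nat.not_lt_zero k)⟩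
  | succ n ih =>
    obtain ⟨ε, h1, h2, h3⟩ := ih
    refine ⟨min ε (δ n), lt_min h1 (hδ n), (min_le_left _ _).trans h2, fun k hk => ?_⟩
    rcases Nat.lt_succ_iff_lt_or_eq.1 hk with h | h
    · exact (min_le_left _ _).trans (h3 k h)
    · rw [h]; exact min_le_right _ _

/-- A uniqueness theorem for the Gevrey class. -/
theorem not_flat_gen (h0 : 0 < α) {E : Set ℂ} (hE : ∀ ζ ∈ E, ‖ζ‖ = 1) {δ : ℕ → ℝ}
    (hδ : ∀ k, 0 < δ k)
    (hnear : ∀ (k : ℕ) (t : ℝ), t ∈ Ico (ss k) (2 * ss k) →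
      ∃ ζ ∈ E, ‖Complex.exp (t * I) - ζ‖ ≤ δ k)
    (hdiv : Tendsto (fun n => ∑ k ∈ Finset.range n, ss k * (2 * δ k) ^ (-α)) atTop atTop)
    {F : ℂ → ℂ} (hF : DifferentiableOn ℂ F (ball 0 1))
    {C : ℝ} (hG : ∀ n : ℕ, ∀ z ∈ ball (0 : ℂ) 1,
      ‖iteratedDeriv n F z‖ ≤ C ^ (n + 1) * (n.factorial : ℝ) ^ (1 + 1 / α))
    (hflat : ∀ ζ ∈ E, ∀ n, Tendsto (iteratedDeriv n F) (𝓝[ball 0 1] ζ) (𝓝 0)) :
    ∀ z ∈ ball (0 : ℂ) 1, F z = 0 := by
  by_contra hcon
  push Not at hcon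
  obtain ⟨w, hw, hFw⟩ := hcon
  -- enlarge the constant
  set D : ℝ := max 1 |C| with hD
  have hD1 : 1 ≤ D := le_max_left _ _
  have hG' : ∀ n : ℕ, ∀ z ∈ ball (0 : ℂ) 1,
      ‖iteratedDeriv n F z‖ ≤ D ^ (n + 1) * (n.factorial : ℝ) ^ (1 + 1 / α) := by
    intro n z hz
    refine (hG n z hz).trans (mul_le_mul_of_nonneg_right ?_ (by positivity))
    calc C ^ (n + 1) ≤ |C ^ (n + 1)| := le_abs_self _
      _ = |C| ^ (n + 1) := abs_pow _ _
      _ ≤ D ^ (n + 1) := pow_le_pow_left₀ (abs_nonneg _) (le_max_right _ _) _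
  obtain ⟨K, hK⟩ := jensen_lower hF
  set L : ℝ := Real.log (2 * D) with hL
  set c : ℝ := Real.log 2 * (2 * D) ^ (-α) with hc
  have hc0 : 0 < c := by
    have := Real.log_pos (by norm_num : (1 : ℝ) < 2)
    positivity
  set a : ℕ → ℝ := fun k => c * (2 * δ k) ^ (-α) with ha
  have ha0 : ∀ k, 0 ≤ a k := fun k => by
    have := hδ k
    simp only [ha]; positivity
  have hsum : ∀ n : ℕ, ∑ k ∈ Finset.range n, ss k * (2 * δ k) ^ (-α) ≤
      (L + K) * (2 * Real.pi) / c := by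
    intro n
    obtain ⟨ε, hε0, hε1, hε⟩ := exists_delta hδ n
    have hr1 : (1 : ℝ) / 2 ≤ 1 - ε := by linarith
    have hr2 : 1 - ε < 1 := by linarith
    have h2 := hK (1 - ε) hr1 hr2
    have h3 := average_le hF hw hFw hr1 hr2 (cmp_int L a n) (cmp_ge L ha0 n) (by
      intro t ht
      have hz : ‖circleMap 0 (1 - ε) t‖ < 1 := by
        rw [norm_circleMap_zero, abs_of_pos (by linarith)]
        exact hr2
      refine cmp_bound ?_ ?_
      · have h4 := hG' 0 _ (mem_ball_zero_iff.2 hz)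
        rw [iteratedDeriv_zero] at h4
        simp only [zero_add, pow_one, Nat.factorial_zero, Nat.cast_one, Real.one_rpow,
          mul_one] at h4
        rw [hL]
        exact Real.log_le_log (norm_pos_iff.2 ht) (by linarith)
      · intro k hk htk
        obtain ⟨ζ, hζ, hd⟩ := hnear k t htk
        have hd' := circle_dist hr2 (by linarith [hε k hk]) hd
        have h4 := log_decay h0 hD1 hF hG' (hE ζ hζ) hz (hflat ζ hζ) ht hd'
        simp only [ha, hc, hL]
        linarith)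
    rw [cmp_integral] at h3
    have h4 : ∑ k ∈ Finset.range n, ss k * a k =
        c * ∑ k ∈ Finset.range n, ss k * (2 * δ k) ^ (-α) := by
      rw [Finset.mul_sum]
      exact Finset.sum_congr rfl fun k _ => by simp only [ha]; ring
    rw [h4] at h3
    have h5 : (2 * Real.pi)⁻¹ * (c * ∑ k ∈ Finset.range n, ss k * (2 * δ k) ^ (-α)) ≤ L + K := by
      linarith
    rw [inv_mul_le_iff₀ (by positivity)] at h5
    rw [le_div_iff₀ hc0]
    linarith
  obtain ⟨n, hn⟩ := ((tendsto_atTop.1 hdiv) ((L + K) * (2 * Real.pi) / c + 1)).exists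
  have := hsum n
  linarith

/-- A function of the Gevrey class, all of whose derivatives vanish on the set, is zero. -/
theorem not_flat (h0 : 0 < α) (h1 : α < 1) {F : ℂ → ℂ} (hF : DifferentiableOn ℂ F (ball 0 1))
    {C : ℝ} (hG : ∀ n : ℕ, ∀ z ∈ ball (0 : ℂ) 1,
      ‖iteratedDeriv n F z‖ ≤ C ^ (n + 1) * (n.factorial : ℝ) ^ (1 + 1 / α))
    (hflat : ∀ ζ ∈ EE α, ∀ n, Tendsto (iteratedDeriv n F) (𝓝[ball 0 1] ζ) (𝓝 0)) :
    ∀ z ∈ ball (0 : ℂ) 1, F z = 0 := by
  have hgap : ∀ k, 0 < ss k / NN α k := fun k => div_pos (ss_pos k) (NN_posR k)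
  refine not_flat_gen h0 (fun ζ hζ => EE_norm hζ) hgap (fun k t ht => near_pt ht) ?_ hF hG hflat
  have hterm : ∀ k : ℕ, 1 / 2 * (1 / ((k : ℝ) + 1)) ≤ ss k * (2 * (ss k / NN α k)) ^ (-α) := by
    intro k
    have h2 := gap_ge h0 h1 k
    have h3 := hgap k
    have h4 : (1 / 2 : ℝ) ≤ 2 ^ (-α) := by
      have : (2 : ℝ) ^ (-1 : ℝ) ≤ 2 ^ (-α) :=
        Real.rpow_le_rpow_of_exponent_le (by norm_num) (by linarith)
      rw [Real.rpow_neg_one] at this
      linarith
    have h5 : ss k * (2 * (ss k / NN α k)) ^ (-α) =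
        2 ^ (-α) * (ss k * (ss k / NN α k) ^ (-α)) := by
      rw [Real.mul_rpow (by norm_num) h3.le]
      ring
    rw [h5]
    have h6 : 0 < 1 / ((k : ℝ) + 1) := by positivity
    exact mul_le_mul h4 h2 h6.le (by positivity)
  have htop := Real.tendsto_sum_range_one_div_nat_succ_atTop
  refine tendsto_atTop_mono (fun n => ?_) (htop.const_mul_atTop (by norm_num : (0 : ℝ) < 1 / 2))
  rw [Finset.mul_sum]
  exact Finset.sum_le_sum fun k _ => hterm k

/-- For `α = 1` the Gevrey class is quasi-analytic at every boundary point. -/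
theorem not_flat_one {F : ℂ → ℂ} (hF : DifferentiableOn ℂ F (ball 0 1))
    {C : ℝ} (hG : ∀ n : ℕ, ∀ z ∈ ball (0 : ℂ) 1,
      ‖iteratedDeriv n F z‖ ≤ C ^ (n + 1) * (n.factorial : ℝ) ^ (1 + 1 / (1 : ℝ)))
    (hflat : ∀ n, Tendsto (iteratedDeriv n F) (𝓝[ball 0 1] 1) (𝓝 0)) :
    ∀ z ∈ ball (0 : ℂ) 1, F z = 0 := by
  refine not_flat_gen (α := 1) (E := {1}) one_pos (fun ζ hζ => ?_) (δ := fun k => 2 * ss k)
    (fun k => by have := ss_pos k; positivity) (fun k t ht => ⟨1, rfl, ?_⟩) ?_ hF hG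
    (fun ζ hζ n => ?_)
  · rw [hζ, norm_one]
  · have h := chord_le t 0
    rw [ofReal_zero, zero_mul, Complex.exp_zero, sub_zero,
      abs_of_pos (lt_of_lt_of_le (ss_pos k) ht.1)] at h
    exact h.trans ht.2.le
  · have e : ∀ n : ℕ, ∑ k ∈ Finset.range n, ss k * (2 * (2 * ss k)) ^ (-(1 : ℝ)) = 1 / 4 * n := by
      intro n
      rw [Finset.sum_congr rfl (g := fun _ => (1 / 4 : ℝ))]
      · simp [mul_comm]
      · intro k _
        have := ss_pos k
        rw [Real.rpow_neg_one]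
        field_simp
        norm_num
    simp only [e]
    exact tendsto_natCast_atTop_atTop.const_mul_atTop (by norm_num)
  · rw [hζ]
    exact hflat n

end Pool.Agent.Helper313PK
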