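import Pool.Agent.Helper313PK.Est

/-!
# The peak function
-/

set_option autoImplicit false

open Complex Finset ComplexConjugate

namespace Pool.Agent.Helper313PK

variable {α : ℝ}

/-- the summands -/
noncomputable def GG (α : ℝ) (k j : ℕ) (ζ : ℂ) : ℂ :=
  (HH α (mm α k) (1 - ζ * conj (pt α k j)))⁻¹

/-- the set -/
def EE (α : ℝ) : Set ℂ := {z | z = 1 ∨ ∃ k j, j < NN α k ∧ z = pt α k j}

/-- the constant -/
noncomputable def cc (α : ℝ) : ℝ := Real.cos (Real.pi * α / 2) / 4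

theorem cc_pos (h0 : 0 < α) (h1 : α < 1) : 0 < cc α := by
  unfold cc
  have := cos_pos' h0 h1
  positivity

theorem cc_le : cc α ≤ 1 / 4 := by
  unfold cc
  have := Real.cos_le_one (Real.pi * α / 2)
  linarith

theorem norm_aux (k j : ℕ) (ζ : ℂ) : ‖1 - ζ * conj (pt α k j)‖ = ‖ζ - pt α k j‖ := by
  have h := pt_norm (α := α) k j
  have e : pt α k j * conj (pt α k j) = 1 := by
    rw [mul_conj, normSq_eq_norm_sq, h]
    simp
  have e2 : 1 - ζ * conj (pt α k j) = (pt α k j - ζ) * conj (pt α k j) := by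
    rw [sub_mul, e]
  rw [e2, norm_mul, RCLike.norm_conj, h, mul_one, norm_sub_rev]

theorem re_aux (k j : ℕ) {ζ : ℂ} (hζ : ‖ζ‖ ≤ 1) : 0 ≤ (1 - ζ * conj (pt α k j)).re := by
  have h1 : (ζ * conj (pt α k j)).re ≤ ‖ζ * conj (pt α k j)‖ := re_le_norm _
  rw [norm_mul, RCLike.norm_conj, pt_norm, mul_one] at h1
  rw [sub_re, one_re]
  linarith

theorem ne_aux {k j : ℕ} {ζ : ℂ} (h : ζ ≠ pt α k j) : 1 - ζ * conj (pt α k j) ≠ 0 := by
  rw [← norm_pos_iff, norm_aux, norm_pos_iff]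
  exact sub_ne_zero.2 h

theorem re_inv' (z : ℂ) : (z⁻¹).re = z.re / ‖z‖ ^ 2 := by
  rw [inv_re, normSq_eq_norm_sq]

section one

variable (h0 : 0 < α) (h1 : α < 1) {k j : ℕ} {ζ : ℂ} (hζ : ‖ζ‖ ≤ 1)
include h0 h1 hζ

theorem GG_re : 0 ≤ (GG α k j ζ).re := by
  unfold GG
  rw [re_inv']
  have h2 := HH_re h0 h1 (mm_pos (α := α) k) (re_aux (α := α) k j hζ)
  have h3 := cos_pos' h0 h1
  have h4 : 0 ≤ Real.cos (Real.pi * α / 2) * ‖1 - ζ * conj (pt α k j)‖ ^ α :=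
    mul_nonneg h3.le (Real.rpow_nonneg (norm_nonneg _) _)
  exact div_nonneg (h4.trans h2) (by positivity)

theorem GG_le1 (hne : ζ ≠ pt α k j) : ‖GG α k j ζ‖ ≤ mm α k / ‖ζ - pt α k j‖ := by
  have hm := mm_pos (α := α) k
  have h2 := HH_ge2 h0 h1 hm (re_aux (α := α) k j hζ)
  rw [norm_aux] at h2
  have h3 : 0 < ‖ζ - pt α k j‖ := norm_pos_iff.2 (sub_ne_zero.2 hne)
  unfold GG
  rw [norm_inv]
  calc ‖HH α (mm α k) (1 - ζ * conj (pt α k j))‖⁻¹ ≤ (‖ζ - pt α k j‖ / mm α k)⁻¹ :=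
        inv_anti₀ (by positivity) h2
    _ = _ := inv_div _ _

theorem GG_near (hne : ζ ≠ pt α k j) (hr : ‖ζ - pt α k j‖ ≤ rr α k) :
    cc α * (‖ζ - pt α k j‖ ^ α)⁻¹ ≤ (GG α k j ζ).re ∧ ‖GG α k j ζ‖ ≤ 1 / cc α * (GG α k j ζ).re := by
  have hm := mm_pos (α := α) k
  have hre := re_aux (α := α) k j hζ
  set z : ℂ := 1 - ζ * conj (pt α k j) with hz
  have hzn : ‖z‖ = ‖ζ - pt α k j‖ := norm_aux k j ζ
  have hzr : ‖z‖ ≤ rr α k := by rw [hzn]; exact hr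
  have hz0 : z ≠ 0 := ne_aux hne
  have h2 := HH_re h0 h1 hm hre
  have h3 := HH_le h0 h1 (rr_pos (α := α) k) hzr
  have h4 := HH_ge1 h0 h1 hm hre
  have hc := cos_pos' h0 h1
  have hzp : 0 < ‖z‖ ^ α := Real.rpow_pos_of_pos (norm_pos_iff.2 hz0) _
  have h5 : ‖HH α (mm α k) z‖ ≤ 2 * ‖z‖ ^ α := h3
  have hHp : 0 < ‖HH α (mm α k) z‖ := lt_of_lt_of_le hzp h4
  have h6 : ‖HH α (mm α k) z‖ ^ 2 ≤ (2 * ‖z‖ ^ α) ^ 2 := pow_le_pow_left₀ hHp.le h5 2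
  have hcc : cc α = Real.cos (Real.pi * α / 2) / 4 := rfl
  have hG : (GG α k j ζ).re = (HH α (mm α k) z).re / ‖HH α (mm α k) z‖ ^ 2 := by
    unfold GG
    rw [re_inv']
  have h7 : cc α * (‖z‖ ^ α)⁻¹ ≤ (GG α k j ζ).re := by
    rw [hG, le_div_iff₀ (by positivity)]
    calc cc α * (‖z‖ ^ α)⁻¹ * ‖HH α (mm α k) z‖ ^ 2
        ≤ cc α * (‖z‖ ^ α)⁻¹ * (2 * ‖z‖ ^ α) ^ 2 := by
          refine mul_le_mul_of_nonneg_left h6 ?_
          rw [hcc]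
          positivity
      _ = Real.cos (Real.pi * α / 2) * ‖z‖ ^ α := by
          rw [hcc]
          field_simp
          norm_num
      _ ≤ _ := h2
  refine ⟨by rw [← hzn]; exact h7, ?_⟩
  have h8 : ‖GG α k j ζ‖ ≤ (‖z‖ ^ α)⁻¹ := by
    unfold GG
    rw [norm_inv]
    exact inv_anti₀ hzp h4
  have hcp : 0 < cc α := cc_pos h0 h1
  rw [one_div, ← div_eq_inv_mul, le_div_iff₀ hcp, mul_comm]
  exact (mul_le_mul_of_nonneg_left h8 hcp.le).trans h7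

theorem GG_TT (hne : ζ ≠ pt α k j) :
    ‖GG α k j ζ‖ ≤ TT α k j ζ + 1 / cc α * (GG α k j ζ).re := by
  have hcp : 0 < cc α := cc_pos h0 h1
  unfold TT
  split_ifs with h
  · rw [zero_add]
    exact (GG_near h0 h1 hζ hne h).2
  · have h2 := GG_le1 h0 h1 hζ hne
    have h3 : 0 ≤ 1 / cc α * (GG α k j ζ).re := mul_nonneg (by positivity) (GG_re h0 h1 hζ)
    linarith

theorem GG_sub {ζ' : ℂ} (hζ' : ‖ζ'‖ ≤ 1) (hne : ζ ≠ pt α k j) (hne' : ζ' ≠ pt α k j) :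
    ‖GG α k j ζ - GG α k j ζ'‖ ≤ (5 * ‖ζ - ζ'‖ ^ α + ‖ζ - ζ'‖ / mm α k) *
      (‖GG α k j ζ‖ * ‖GG α k j ζ'‖) := by
  have hm := mm_pos (α := α) k
  have hre := re_aux (α := α) k j hζ
  have hre' := re_aux (α := α) k j hζ'
  have hH := HH_ne h0 h1 hm hre (ne_aux hne)
  have hH' := HH_ne h0 h1 hm hre' (ne_aux hne')
  have h2 := HH_sub h0 h1 hm hre hre'
  have e1 : ‖(1 - ζ * conj (pt α k j)) - (1 - ζ' * conj (pt α k j))‖ = ‖ζ - ζ'‖ := by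
    have : (1 - ζ * conj (pt α k j)) - (1 - ζ' * conj (pt α k j)) =
        -((ζ - ζ') * conj (pt α k j)) := by ring
    rw [this, norm_neg, norm_mul, RCLike.norm_conj, pt_norm, mul_one]
  rw [e1] at h2
  unfold GG
  have e2 : (HH α (mm α k) (1 - ζ * conj (pt α k j)))⁻¹ -
      (HH α (mm α k) (1 - ζ' * conj (pt α k j)))⁻¹ =
      -(HH α (mm α k) (1 - ζ * conj (pt α k j)) - HH α (mm α k) (1 - ζ' * conj (pt α k j))) *
      ((HH α (mm α k) (1 - ζ * conj (pt α k j)))⁻¹ *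
      (HH α (mm α k) (1 - ζ' * conj (pt α k j)))⁻¹) := by
    have key : ∀ a b : ℂ, a ≠ 0 → b ≠ 0 → a⁻¹ - b⁻¹ = -(a - b) * (a⁻¹ * b⁻¹) := by
      intro a b ha hb
      field_simp
      ring
    exact key _ _ hH hH'
  rw [e2, norm_mul, norm_neg, norm_mul]
  exact mul_le_mul_of_nonneg_right h2 (by positivity)

end one

/-- the block sums -/
noncomputable def BB (α : ℝ) (k : ℕ) (ζ : ℂ) : ℂ := ∑ j ∈ range (NN α k), GG α k j ζ

/-- the block sums of the absolute values -/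
noncomputable def AB (α : ℝ) (k : ℕ) (ζ : ℂ) : ℝ := ∑ j ∈ range (NN α k), ‖GG α k j ζ‖

theorem BB_le (k : ℕ) (ζ : ℂ) : ‖BB α k ζ‖ ≤ AB α k ζ := norm_sum_le _ _

theorem AB_nonneg (k : ℕ) (ζ : ℂ) : 0 ≤ AB α k ζ := sum_nonneg fun _ _ => norm_nonneg _

section two

variable (h0 : 0 < α) (h1 : α < 1) {ζ : ℂ} (hζ : ‖ζ‖ ≤ 1) (hE : ζ ∉ EE α)

omit h0 h1 hζ in
include hE in
theorem ne_one : ζ ≠ 1 := fun h => hE (Or.inl h)

omit h0 h1 hζ in
include hE in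
theorem ne_pt {k j : ℕ} (hj : j < NN α k) : ζ ≠ pt α k j := fun h => hE (Or.inr ⟨k, j, hj, h⟩)

include h0 h1 hζ

theorem BB_re (k : ℕ) : 0 ≤ (BB α k ζ).re := by
  unfold BB
  rw [re_sum]
  exact sum_nonneg fun _ _ => GG_re h0 h1 hζ

include hE

theorem AB_le (k : ℕ) : AB α k ζ ≤ TS α k ζ + 1 / cc α * (BB α k ζ).re := by
  unfold AB TS BB
  rw [re_sum, mul_sum, ← sum_add_distrib]
  exact sum_le_sum fun j hj => GG_TT h0 h1 hζ (ne_pt hE (mem_range.1 hj))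

theorem AB_far {k : ℕ} (h : ∀ j < NN α k, rr α k < ‖ζ - pt α k j‖) : AB α k ζ ≤ TS α k ζ := by
  unfold AB TS
  refine sum_le_sum fun j hj => ?_
  unfold TT
  rw [if_neg (not_le.2 (h j (mem_range.1 hj)))]
  exact GG_le1 h0 h1 hζ (ne_pt hE (mem_range.1 hj))

theorem AB_summable : Summable fun k => AB α k ζ := by
  obtain ⟨C, hC, hT⟩ := TS_sum h0 h1
  obtain ⟨hs, -⟩ := hT ζ (ne_one hE)
  obtain ⟨k₀, hk₀⟩ : ∃ k₀ : ℕ, ∀ k, k ≠ k₀ → ¬ near k ζ := by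
    by_cases h : ∃ k, near k ζ
    · obtain ⟨k, hk⟩ := h
      exact ⟨k, fun l hl hl' => hl (near_unique hl' hk)⟩
    · push Not at h
      exact ⟨0, fun k _ => h k⟩
  have hs2 : Summable fun k => (if k = k₀ then AB α k₀ ζ else (0 : ℝ)) :=
    (hasSum_ite_eq k₀ _).summable
  refine Summable.of_nonneg_of_le (fun k => AB_nonneg k ζ) (fun k => ?_) (hs.add hs2)
  by_cases hk : k = k₀
  · subst hk
    rw [if_pos rfl]
    have := TS_nonneg (α := α) k ζ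
    linarith
  · rw [if_neg hk, add_zero]
    exact AB_far h0 h1 hζ hE fun j hj => (far_dist h0 h1 (hk₀ k hk) hj).2

theorem BB_summable : Summable fun k => BB α k ζ :=
  Summable.of_norm_bounded (AB_summable h0 h1 hζ hE) fun k => BB_le k ζ

end two

/-- the function `g` -/
noncomputable def gg (α K : ℝ) (ζ : ℂ) : ℂ := (K : ℂ) / (1 - ζ) + ∑' k, BB α k ζ

theorem re_one {ζ : ℂ} (hζ : ‖ζ‖ ≤ 1) (hne : ζ ≠ 1) : 1 / 2 ≤ ((1 - ζ)⁻¹).re := by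
  have h2 : 0 < ‖1 - ζ‖ := norm_pos_iff.2 (sub_ne_zero.2 hne.symm)
  rw [re_inv', le_div_iff₀ (by positivity), Complex.sq_norm, normSq_apply]
  have h3 : ‖ζ‖ ^ 2 ≤ 1 := pow_le_one₀ (norm_nonneg _) hζ
  rw [Complex.sq_norm, normSq_apply] at h3
  simp only [sub_re, one_re, sub_im, one_im]
  nlinarith

section three

variable (h0 : 0 < α) (h1 : α < 1) {K : ℝ} (hK : 0 < K) {ζ : ℂ} (hζ : ‖ζ‖ ≤ 1) (hE : ζ ∉ EE α)
include h0 h1 hK hζ hE

theorem gg_re : (gg α K ζ).re = K * ((1 - ζ)⁻¹).re + ∑' k, (BB α k ζ).re := by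
  unfold gg
  rw [add_re, div_eq_mul_inv, re_ofReal_mul, re_tsum (BB_summable h0 h1 hζ hE)]

theorem gg_re_pos : 0 < (gg α K ζ).re := by
  rw [gg_re h0 h1 hK hζ hE]
  have h2 := re_one hζ (ne_one hE)
  have h3 : 0 ≤ ∑' k, (BB α k ζ).re := tsum_nonneg fun k => BB_re h0 h1 hζ k
  have : 0 < K * ((1 - ζ)⁻¹).re := mul_pos hK (by linarith)
  linarith

theorem gg_ne : gg α K ζ ≠ 0 := by
  intro h
  have := gg_re_pos h0 h1 hK hζ hE
  rw [h, zero_re] at this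
  exact lt_irrefl _ this

theorem sum_re_le : ∑' k, (BB α k ζ).re ≤ (gg α K ζ).re := by
  rw [gg_re h0 h1 hK hζ hE]
  have h2 := re_one hζ (ne_one hE)
  have : 0 < K * ((1 - ζ)⁻¹).re := mul_pos hK (by linarith)
  linarith

theorem re_summable : Summable fun k => (BB α k ζ).re :=
  (hasSum_re (BB_summable h0 h1 hζ hE).hasSum).summable

theorem gg_near {k j : ℕ} (hj : j < NN α k) (hr : ‖ζ - pt α k j‖ ≤ rr α k) :
    cc α * (‖ζ - pt α k j‖ ^ α)⁻¹ ≤ ‖gg α K ζ‖ := by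
  have h2 := (GG_near h0 h1 hζ (ne_pt hE hj) hr).1
  have h3 : (GG α k j ζ).re ≤ (BB α k ζ).re := by
    unfold BB
    rw [re_sum]
    exact single_le_sum (f := fun j => (GG α k j ζ).re) (fun _ _ => GG_re h0 h1 hζ)
      (mem_range.2 hj)
  have h4 : (BB α k ζ).re ≤ ∑' k, (BB α k ζ).re :=
    (re_summable h0 h1 hK hζ hE).le_tsum k fun l _ => BB_re h0 h1 hζ l
  have h5 := sum_re_le h0 h1 hK hζ hE
  exact h2.trans (h3.trans (h4.trans (h5.trans (re_le_norm _))))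

end three

theorem rr_rpow (h0 : 0 < α) (h1 : α < 1) (k : ℕ) :
    ss k ≤ (rr α k ^ α) * 4 ∧ rr α k ^ α ≤ ss k := by
  have hs := ss_pos k
  have e : ss k ^ (1 / α * α) = ss k := by
    rw [one_div_mul_cancel h0.ne', Real.rpow_one]
  unfold rr
  rw [Real.div_rpow (Real.rpow_nonneg hs.le _) (by norm_num), ← Real.rpow_mul hs.le, e]
  have h4 : (1 : ℝ) ≤ 4 ^ α := Real.one_le_rpow (by norm_num) h0.le
  have h5 : (4 : ℝ) ^ α ≤ 4 := by
    calc (4:ℝ) ^ α ≤ 4 ^ (1:ℝ) := Real.rpow_le_rpow_of_exponent_le (by norm_num) h1.le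
      _ = 4 := Real.rpow_one _
  constructor
  · rw [div_mul_eq_mul_div, le_div_iff₀ (by linarith)]
    exact mul_le_mul_of_nonneg_left h5 hs.le
  · exact div_le_self hs.le h4

/-- the bounds for `g` -/
theorem gg_bounds (h0 : 0 < α) (h1 : α < 1) : ∃ K C : ℝ, 0 < K ∧ 0 < C ∧ ∀ ζ : ℂ, ‖ζ‖ ≤ 1 →
    ζ ∉ EE α → ‖(gg α K ζ)⁻¹‖ ≤ C * ‖1 - ζ‖ ∧ ∑' k, AB α k ζ ≤ C * ‖gg α K ζ‖ := by
  obtain ⟨C, hC, hT⟩ := TS_sum h0 h1
  have hc := cc_pos h0 h1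
  have hc4 := cc_le (α := α)
  refine ⟨C + 1, 3 * (1 + C) / cc α + 1 / cc α, by positivity, by positivity, fun ζ hζ hE => ?_⟩
  have hK : 0 < C + 1 := by positivity
  obtain ⟨hs, hTS⟩ := hT ζ (ne_one hE)
  have hD : 0 < ‖1 - ζ‖ := norm_pos_iff.2 (sub_ne_zero.2 (ne_one hE).symm)
  have hg0 : 0 < ‖gg α (C + 1) ζ‖ := norm_pos_iff.2 (gg_ne h0 h1 hK hζ hE)
  have hAs := AB_summable h0 h1 hζ hE
  -- the lower bound
  have hlow : cc α / 3 ≤ ‖gg α (C + 1) ζ‖ * ‖1 - ζ‖ := by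
    by_cases hn : ∃ k j, j < NN α k ∧ ‖ζ - pt α k j‖ ≤ rr α k
    · obtain ⟨k, j, hj, hr⟩ := hn
      have h2 := gg_near h0 h1 hK hζ hE hj hr
      have hz : 0 < ‖ζ - pt α k j‖ := norm_pos_iff.2 (sub_ne_zero.2 (ne_pt hE hj))
      have h3 : ‖ζ - pt α k j‖ ^ α ≤ ss k :=
        (Real.rpow_le_rpow hz.le hr h0.le).trans (rr_rpow h0 h1 k).2
      have hzp : 0 < ‖ζ - pt α k j‖ ^ α := Real.rpow_pos_of_pos hz _
      have hs' := ss_pos k
      have h4 : cc α / ss k ≤ ‖gg α (C + 1) ζ‖ := by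
        refine le_trans ?_ h2
        rw [div_eq_mul_inv]
        exact mul_le_mul_of_nonneg_left (inv_anti₀ hzp h3) hc.le
      have h5 : 3 / 8 * ss k ≤ ‖1 - ζ‖ := by
        have h6 := (pt_one hj).1
        have h7 := rr_le h0 h1 k
        have h8 : ‖1 - pt α k j‖ ≤ ‖1 - ζ‖ + ‖ζ - pt α k j‖ := by
          have := norm_add_le (1 - ζ) (ζ - pt α k j)
          rwa [sub_add_sub_cancel] at this
        linarith
      calc cc α / 3 ≤ cc α / ss k * (3 / 8 * ss k) := by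
            have : cc α / ss k * (3 / 8 * ss k) = 3 / 8 * cc α := by field_simp
            rw [this]
            linarith
        _ ≤ _ := mul_le_mul h4 h5 (by positivity) hg0.le
    · push Not at hn
      have h2 : ∀ k, ‖BB α k ζ‖ ≤ TS α k ζ := fun k =>
        (BB_le k ζ).trans (AB_far h0 h1 hζ hE fun j hj => hn k j hj)
      have h3 : ‖∑' k, BB α k ζ‖ ≤ C / ‖1 - ζ‖ :=
        (tsum_of_norm_bounded hs.hasSum h2).trans hTS
      have h4 : (C + 1) / ‖1 - ζ‖ - C / ‖1 - ζ‖ ≤ ‖gg α (C + 1) ζ‖ := by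
        unfold gg
        have h5 : ‖((C + 1 : ℝ) : ℂ) / (1 - ζ)‖ = (C + 1) / ‖1 - ζ‖ := by
          rw [norm_div, norm_real, Real.norm_eq_abs, abs_of_pos hK]
        have h6 := norm_sub_le (((C + 1 : ℝ) : ℂ) / (1 - ζ) + ∑' k, BB α k ζ) (∑' k, BB α k ζ)
        rw [add_sub_cancel_right, h5] at h6
        linarith
      have h5 : (C + 1) / ‖1 - ζ‖ - C / ‖1 - ζ‖ = 1 / ‖1 - ζ‖ := by ring
      rw [h5, div_le_iff₀ hD] at h4
      linarith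
  have hlow2 : 1 / ‖1 - ζ‖ ≤ 3 / cc α * ‖gg α (C + 1) ζ‖ := by
    rw [div_mul_eq_mul_div, div_le_div_iff₀ hD hc]
    linarith
  refine ⟨?_, ?_⟩
  · rw [norm_inv, inv_le_iff_one_le_mul₀ hg0]
    have h2 : 1 ≤ 3 / cc α * (‖gg α (C + 1) ζ‖ * ‖1 - ζ‖) := by
      rw [div_mul_eq_mul_div, le_div_iff₀ hc]
      linarith
    have h3 : 3 / cc α ≤ 3 * (1 + C) / cc α + 1 / cc α := by
      have : 3 * (1 + C) / cc α + 1 / cc α = 3 / cc α + (3 * C + 1) / cc α := by ring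
      rw [this]
      have : 0 < (3 * C + 1) / cc α := by positivity
      linarith
    have h4 : 0 ≤ ‖gg α (C + 1) ζ‖ * ‖1 - ζ‖ := by positivity
    nlinarith
  · have h2 : ∑' k, AB α k ζ ≤ ∑' k, (TS α k ζ + 1 / cc α * (BB α k ζ).re) :=
      hAs.tsum_le_tsum (AB_le h0 h1 hζ hE)
        (hs.add ((re_summable h0 h1 hK hζ hE).mul_left _))
    rw [hs.tsum_add ((re_summable h0 h1 hK hζ hE).mul_left _), tsum_mul_left] at h2
    have h3 := (sum_re_le h0 h1 hK hζ hE).trans (re_le_norm _)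
    have h4 : C / ‖1 - ζ‖ ≤ 3 * C / cc α * ‖gg α (C + 1) ζ‖ := by
      have := mul_le_mul_of_nonneg_left hlow2 hC.le
      calc C / ‖1 - ζ‖ = C * (1 / ‖1 - ζ‖) := by ring
        _ ≤ C * (3 / cc α * ‖gg α (C + 1) ζ‖) := this
        _ = _ := by ring
    have h5 : 1 / cc α * ∑' k, (BB α k ζ).re ≤ 1 / cc α * ‖gg α (C + 1) ζ‖ :=
      mul_le_mul_of_nonneg_left h3 (by positivity)
    have h6 : 3 * C / cc α * ‖gg α (C + 1) ζ‖ ≤ 3 * (1 + C) / cc α * ‖gg α (C + 1) ζ‖ := by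
      refine mul_le_mul_of_nonneg_right ?_ hg0.le
      refine div_le_div_of_nonneg_right ?_ hc.le
      linarith
    rw [add_mul]
    linarith

end Pool.Agent.Helper313PK
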