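import Pool.Agent.Helper313PK.Peak

/-!
# The Hölder estimate
-/

set_option autoImplicit false

open Complex Finset ComplexConjugate

namespace Pool.Agent.Helper313PK

variable {α : ℝ}

theorem sum_mul_le' (s : Finset ℕ) (a b : ℕ → ℝ) (ha : ∀ i, 0 ≤ a i) (hb : ∀ i, 0 ≤ b i) :
    ∑ i ∈ s, a i * b i ≤ (∑ i ∈ s, a i) * ∑ i ∈ s, b i := by
  rw [mul_sum]
  exact sum_le_sum fun i hi => mul_le_mul_of_nonneg_right
    (single_le_sum (f := a) (fun i _ => ha i) hi) (hb i)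

theorem le_rpow_self {δ : ℝ} (h0 : 0 < α) (h1 : α < 1) (hδ : 0 ≤ δ) (hδ2 : δ ≤ 2) :
    δ ≤ 2 * δ ^ α := by
  rcases hδ.eq_or_lt with h | h
  · rw [← h, Real.zero_rpow h0.ne', mul_zero]
  · have e : δ = δ ^ (1 - α) * δ ^ α := by
      rw [← Real.rpow_add h]
      simp
    have h2 : δ ^ (1 - α) ≤ 2 := by
      calc δ ^ (1 - α) ≤ 2 ^ (1 - α) := Real.rpow_le_rpow hδ hδ2 (by linarith)
        _ ≤ 2 ^ (1 : ℝ) := Real.rpow_le_rpow_of_exponent_le (by norm_num) (by linarith)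
        _ = 2 := Real.rpow_one _
    have h3 : 0 < δ ^ α := Real.rpow_pos_of_pos h _
    nlinarith

section

variable (h0 : 0 < α) (h1 : α < 1) {ζ ζ' : ℂ} (hζ : ‖ζ‖ ≤ 1) (hE : ζ ∉ EE α) (hζ' : ‖ζ'‖ ≤ 1)
  (hE' : ζ' ∉ EE α) (hne : ζ ≠ ζ') (hD : 16 * ‖ζ - ζ'‖ ^ α < ‖1 - ζ‖)
  (hD' : 16 * ‖ζ - ζ'‖ ^ α < ‖1 - ζ'‖)
include h0 h1 hζ hE hζ' hE' hne hD hD'

theorem term_le {k j : ℕ} (hj : j < NN α k) : ‖GG α k j ζ - GG α k j ζ'‖ ≤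
    6 * ‖ζ - ζ'‖ ^ α * (‖GG α k j ζ‖ * ‖GG α k j ζ'‖) +
      4 * ‖ζ - ζ'‖ * mm α k / (‖1 - ζ‖ * ‖1 - ζ'‖) := by
  have hδ : 0 < ‖ζ - ζ'‖ := norm_pos_iff.2 (sub_ne_zero.2 hne)
  have hδα : 0 < ‖ζ - ζ'‖ ^ α := Real.rpow_pos_of_pos hδ _
  have hm := mm_pos (α := α) k
  have hr := rr_pos (α := α) k
  have hDp : 0 < ‖1 - ζ‖ := norm_pos_iff.2 (sub_ne_zero.2 (ne_one hE).symm)
  have hDp' : 0 < ‖1 - ζ'‖ := norm_pos_iff.2 (sub_ne_zero.2 (ne_one hE').symm)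
  have h2 := GG_sub h0 h1 hζ hζ' (ne_pt hE hj) (ne_pt hE' hj)
  have hprod : 0 ≤ ‖GG α k j ζ‖ * ‖GG α k j ζ'‖ := by positivity
  rcases le_or_gt ‖ζ - ζ'‖ (rr α k) with h3 | h3
  · have h4 : ‖ζ - ζ'‖ / mm α k ≤ ‖ζ - ζ'‖ ^ α := by
      have h5 : ‖ζ - ζ'‖ ^ (1 - α) ≤ mm α k := Real.rpow_le_rpow hδ.le h3 (by linarith)
      have h6 : ‖ζ - ζ'‖ = ‖ζ - ζ'‖ ^ α * ‖ζ - ζ'‖ ^ (1 - α) := by
        rw [← Real.rpow_add hδ]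
        simp
      rw [div_le_iff₀ hm]
      nth_rewrite 1 [h6]
      exact mul_le_mul_of_nonneg_left h5 hδα.le
    have h5 : 0 ≤ 4 * ‖ζ - ζ'‖ * mm α k / (‖1 - ζ‖ * ‖1 - ζ'‖) := by positivity
    have h6 : (5 * ‖ζ - ζ'‖ ^ α + ‖ζ - ζ'‖ / mm α k) * (‖GG α k j ζ‖ * ‖GG α k j ζ'‖) ≤
        6 * ‖ζ - ζ'‖ ^ α * (‖GG α k j ζ‖ * ‖GG α k j ζ'‖) :=
      mul_le_mul_of_nonneg_right (by linarith) hprod
    linarith
  · have h4 : 4 * ss k ≤ 16 * ‖ζ - ζ'‖ ^ α := by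
      have h5 := (rr_rpow h0 h1 k).1
      have h6 : rr α k ^ α ≤ ‖ζ - ζ'‖ ^ α := Real.rpow_le_rpow hr.le h3.le h0.le
      linarith
    have hnn : ¬ near k ζ := fun h => by linarith [h.2]
    have hnn' : ¬ near k ζ' := fun h => by linarith [h.2]
    have h5 := (far_dist h0 h1 hnn hj).1
    have h5' := (far_dist h0 h1 hnn' hj).1
    have h6 : ‖GG α k j ζ‖ ≤ 2 * mm α k / ‖1 - ζ‖ := by
      refine (GG_le1 h0 h1 hζ (ne_pt hE hj)).trans ?_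
      rw [div_le_div_iff₀ (by linarith) hDp]
      nlinarith
    have h6' : ‖GG α k j ζ'‖ ≤ 2 * mm α k / ‖1 - ζ'‖ := by
      refine (GG_le1 h0 h1 hζ' (ne_pt hE' hj)).trans ?_
      rw [div_le_div_iff₀ (by linarith) hDp']
      nlinarith
    have h7 : ‖ζ - ζ'‖ / mm α k * (‖GG α k j ζ‖ * ‖GG α k j ζ'‖) ≤
        4 * ‖ζ - ζ'‖ * mm α k / (‖1 - ζ‖ * ‖1 - ζ'‖) := by
      calc ‖ζ - ζ'‖ / mm α k * (‖GG α k j ζ‖ * ‖GG α k j ζ'‖)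
          ≤ ‖ζ - ζ'‖ / mm α k * (2 * mm α k / ‖1 - ζ‖ * (2 * mm α k / ‖1 - ζ'‖)) := by
            refine mul_le_mul_of_nonneg_left ?_ (by positivity)
            exact mul_le_mul h6 h6' (norm_nonneg _) (by positivity)
        _ = _ := by
            field_simp
            norm_num
    have h8 : (5 * ‖ζ - ζ'‖ ^ α + ‖ζ - ζ'‖ / mm α k) * (‖GG α k j ζ‖ * ‖GG α k j ζ'‖) =
        5 * ‖ζ - ζ'‖ ^ α * (‖GG α k j ζ‖ * ‖GG α k j ζ'‖) +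
        ‖ζ - ζ'‖ / mm α k * (‖GG α k j ζ‖ * ‖GG α k j ζ'‖) := by ring
    have h9 : 5 * ‖ζ - ζ'‖ ^ α * (‖GG α k j ζ‖ * ‖GG α k j ζ'‖) ≤
        6 * ‖ζ - ζ'‖ ^ α * (‖GG α k j ζ‖ * ‖GG α k j ζ'‖) :=
      mul_le_mul_of_nonneg_right (by linarith) hprod
    linarith

theorem block_le (k : ℕ) : ‖BB α k ζ - BB α k ζ'‖ ≤
    6 * ‖ζ - ζ'‖ ^ α * (AB α k ζ * AB α k ζ') +
      4 * ‖ζ - ζ'‖ / (‖1 - ζ‖ * ‖1 - ζ'‖) * ((NN α k : ℝ) * mm α k) := by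
  unfold BB
  rw [← sum_sub_distrib]
  refine (norm_sum_le _ _).trans ((sum_le_sum fun j hj =>
    term_le h0 h1 hζ hE hζ' hE' hne hD hD' (mem_range.1 hj)).trans ?_)
  rw [sum_add_distrib, ← mul_sum, sum_const, card_range, nsmul_eq_mul]
  have h2 := sum_mul_le' (range (NN α k)) (fun j => ‖GG α k j ζ‖) (fun j => ‖GG α k j ζ'‖)
    (fun _ => norm_nonneg _) (fun _ => norm_nonneg _)
  have h3 : 0 ≤ 6 * ‖ζ - ζ'‖ ^ α := by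
    have := Real.rpow_nonneg (norm_nonneg (ζ - ζ')) α
    positivity
  have h4 := mul_le_mul_of_nonneg_left h2 h3
  have h5 : (NN α k : ℝ) * (4 * ‖ζ - ζ'‖ * mm α k / (‖1 - ζ‖ * ‖1 - ζ'‖)) =
      4 * ‖ζ - ζ'‖ / (‖1 - ζ‖ * ‖1 - ζ'‖) * ((NN α k : ℝ) * mm α k) := by ring
  rw [h5]
  unfold AB
  linarith

theorem sum_le : ‖∑' k, BB α k ζ - ∑' k, BB α k ζ'‖ ≤
    6 * ‖ζ - ζ'‖ ^ α * ((∑' k, AB α k ζ) * ∑' k, AB α k ζ') +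
      4 * ‖ζ - ζ'‖ / (‖1 - ζ‖ * ‖1 - ζ'‖) * ∑' k, (NN α k : ℝ) * mm α k := by
  have hA := AB_summable h0 h1 hζ hE
  have hA' := AB_summable h0 h1 hζ' hE'
  have hM := summable_NNmm h0 h1
  have hAA : Summable fun k => AB α k ζ * AB α k ζ' := by
    refine Summable.of_nonneg_of_le (fun k => mul_nonneg (AB_nonneg _ _) (AB_nonneg _ _))
      (fun k => ?_) (hA'.mul_left (∑' k, AB α k ζ))
    exact mul_le_mul_of_nonneg_right (hA.le_tsum k fun l _ => AB_nonneg _ _) (AB_nonneg _ _)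
  have hAAle : ∑' k, AB α k ζ * AB α k ζ' ≤ (∑' k, AB α k ζ) * ∑' k, AB α k ζ' := by
    rw [← tsum_mul_left]
    exact hAA.tsum_le_tsum (fun k => mul_le_mul_of_nonneg_right
      (hA.le_tsum k fun l _ => AB_nonneg _ _) (AB_nonneg _ _)) (hA'.mul_left _)
  rw [← (BB_summable h0 h1 hζ hE).tsum_sub (BB_summable h0 h1 hζ' hE')]
  have hS := (hAA.mul_left (6 * ‖ζ - ζ'‖ ^ α)).add
    (hM.mul_left (4 * ‖ζ - ζ'‖ / (‖1 - ζ‖ * ‖1 - ζ'‖)))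
  refine (tsum_of_norm_bounded hS.hasSum
    (block_le h0 h1 hζ hE hζ' hE' hne hD hD')).trans ?_
  rw [(hAA.mul_left (6 * ‖ζ - ζ'‖ ^ α)).tsum_add
    (hM.mul_left (4 * ‖ζ - ζ'‖ / (‖1 - ζ‖ * ‖1 - ζ'‖))), tsum_mul_left, tsum_mul_left]
  have h3 : 0 ≤ 6 * ‖ζ - ζ'‖ ^ α := by
    have := Real.rpow_nonneg (norm_nonneg (ζ - ζ')) α
    positivity
  have h4 := mul_le_mul_of_nonneg_left hAAle h3
  linarith

end

/-- the function `h` -/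
noncomputable def hh (α K : ℝ) (ζ : ℂ) : ℂ :=
  open scoped Classical in if ζ ∈ EE α then 0 else (gg α K ζ)⁻¹

theorem hh_mem {K : ℝ} {ζ : ℂ} (h : ζ ∈ EE α) : hh α K ζ = 0 := by
  unfold hh
  rw [if_pos h]

theorem hh_not_mem {K : ℝ} {ζ : ℂ} (h : ζ ∉ EE α) : hh α K ζ = (gg α K ζ)⁻¹ := by
  unfold hh
  rw [if_neg h]

theorem norm_sub_le_two {ζ ζ' : ℂ} (hζ : ‖ζ‖ ≤ 1) (hζ' : ‖ζ'‖ ≤ 1) : ‖ζ - ζ'‖ ≤ 2 := by
  have := norm_sub_le ζ ζ'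
  linarith

theorem EE_norm {ζ : ℂ} (h : ζ ∈ EE α) : ‖ζ‖ = 1 := by
  rcases h with rfl | ⟨k, j, -, rfl⟩
  · exact norm_one
  · exact pt_norm k j

/-- Hölder continuity of `h` -/
theorem hh_holder (h0 : 0 < α) (h1 : α < 1) : ∃ K C : ℝ, 0 < K ∧ 0 < C ∧
    ∀ ζ ζ' : ℂ, ‖ζ‖ ≤ 1 → ‖ζ'‖ ≤ 1 → ‖hh α K ζ - hh α K ζ'‖ ≤ C * ‖ζ - ζ'‖ ^ α := by
  obtain ⟨K, C, hK, hC, hb⟩ := gg_bounds h0 h1
  have hc := cc_pos h0 h1
  set M : ℝ := ∑' k, (NN α k : ℝ) * mm α k with hM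
  have hM0 : 0 ≤ M := tsum_nonneg fun k => mul_nonneg (Nat.cast_nonneg _) (mm_pos k).le
  -- two points off the set
  have hgood : ∀ ζ ζ' : ℂ, ‖ζ‖ ≤ 1 → ‖ζ'‖ ≤ 1 → ζ ∉ EE α → ζ' ∉ EE α →
      ‖(gg α K ζ)⁻¹ - (gg α K ζ')⁻¹‖ ≤
        (34 * C + (2 * K + 6 + 8 * M) * C ^ 2) * ‖ζ - ζ'‖ ^ α := by
    intro ζ ζ' hζ hζ' hE hE'
    by_cases hne : ζ = ζ'
    · subst hne
      rw [sub_self, norm_zero]
      have := Real.rpow_nonneg (norm_nonneg (ζ - ζ)) α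
      positivity
    have hδ : 0 < ‖ζ - ζ'‖ := norm_pos_iff.2 (sub_ne_zero.2 hne)
    have hδα : 0 < ‖ζ - ζ'‖ ^ α := Real.rpow_pos_of_pos hδ _
    have hδ2 := le_rpow_self h0 h1 hδ.le (norm_sub_le_two hζ hζ')
    obtain ⟨b1, b2⟩ := hb ζ hζ hE
    obtain ⟨b1', b2'⟩ := hb ζ' hζ' hE'
    have hDp : 0 < ‖1 - ζ‖ := norm_pos_iff.2 (sub_ne_zero.2 (ne_one hE).symm)
    have hDp' : 0 < ‖1 - ζ'‖ := norm_pos_iff.2 (sub_ne_zero.2 (ne_one hE').symm)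
    have hg0 := gg_ne h0 h1 hK hζ hE
    have hg0' := gg_ne h0 h1 hK hζ' hE'
    have hgp : 0 < ‖gg α K ζ‖ := norm_pos_iff.2 hg0
    have hgp' : 0 < ‖gg α K ζ'‖ := norm_pos_iff.2 hg0'
    have hbig : 0 ≤ (2 * K + 6 + 8 * M) * C ^ 2 * ‖ζ - ζ'‖ ^ α := by positivity
    have hd1 : ‖1 - ζ‖ ≤ ‖1 - ζ'‖ + ‖ζ - ζ'‖ := by
      have := norm_sub_le (1 - ζ') (ζ - ζ')
      rwa [sub_sub_sub_cancel_right] at this
    have hd2 : ‖1 - ζ'‖ ≤ ‖1 - ζ‖ + ‖ζ - ζ'‖ := by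
      have := norm_add_le (1 - ζ) (ζ - ζ')
      rwa [sub_add_sub_cancel] at this
    by_cases hA : ‖1 - ζ‖ ≤ 16 * ‖ζ - ζ'‖ ^ α ∨ ‖1 - ζ'‖ ≤ 16 * ‖ζ - ζ'‖ ^ α
    · have h2 : ‖1 - ζ‖ + ‖1 - ζ'‖ ≤ 34 * ‖ζ - ζ'‖ ^ α := by
        rcases hA with h | h <;> linarith
      calc ‖(gg α K ζ)⁻¹ - (gg α K ζ')⁻¹‖ ≤ ‖(gg α K ζ)⁻¹‖ + ‖(gg α K ζ')⁻¹‖ := norm_sub_le _ _
        _ ≤ C * (‖1 - ζ‖ + ‖1 - ζ'‖) := by linarith
        _ ≤ C * (34 * ‖ζ - ζ'‖ ^ α) := mul_le_mul_of_nonneg_left h2 hC.le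
        _ ≤ _ := by rw [add_mul]; linarith
    · push Not at hA
      have hs := sum_le h0 h1 hζ hE hζ' hE' hne hA.1 hA.2
      -- `1 / D ≤ C |g|`
      have i1 : 1 / ‖1 - ζ‖ ≤ C * ‖gg α K ζ‖ := by
        rw [norm_inv, inv_le_iff_one_le_mul₀ hgp] at b1
        rw [div_le_iff₀ hDp]
        linarith
      have i1' : 1 / ‖1 - ζ'‖ ≤ C * ‖gg α K ζ'‖ := by
        rw [norm_inv, inv_le_iff_one_le_mul₀ hgp'] at b1'
        rw [div_le_iff₀ hDp']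
        linarith
      have i2 : 1 / (‖1 - ζ‖ * ‖1 - ζ'‖) ≤ C ^ 2 * (‖gg α K ζ‖ * ‖gg α K ζ'‖) := by
        calc 1 / (‖1 - ζ‖ * ‖1 - ζ'‖) = 1 / ‖1 - ζ‖ * (1 / ‖1 - ζ'‖) := by
              rw [one_div_mul_one_div]
          _ ≤ C * ‖gg α K ζ‖ * (C * ‖gg α K ζ'‖) :=
              mul_le_mul i1 i1' (by positivity) (by positivity)
          _ = _ := by ring
      have i3 : (∑' k, AB α k ζ) * ∑' k, AB α k ζ' ≤ C ^ 2 * (‖gg α K ζ‖ * ‖gg α K ζ'‖) := by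
        calc (∑' k, AB α k ζ) * ∑' k, AB α k ζ' ≤ C * ‖gg α K ζ‖ * (C * ‖gg α K ζ'‖) :=
              mul_le_mul b2 b2' (tsum_nonneg fun k => AB_nonneg _ _) (by positivity)
          _ = _ := by ring
      have i4 : ‖(K : ℂ) / (1 - ζ) - (K : ℂ) / (1 - ζ')‖ ≤
          K * ‖ζ - ζ'‖ * (1 / (‖1 - ζ‖ * ‖1 - ζ'‖)) := by
        have n1 : (1 : ℂ) - ζ ≠ 0 := sub_ne_zero.2 (ne_one hE).symm
        have n2 : (1 : ℂ) - ζ' ≠ 0 := sub_ne_zero.2 (ne_one hE').symm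
        have e : (K : ℂ) / (1 - ζ) - (K : ℂ) / (1 - ζ') =
            (K : ℂ) * (ζ - ζ') * (1 / ((1 - ζ) * (1 - ζ'))) := by
          field_simp
          ring
        rw [e, norm_mul, norm_mul, norm_div, norm_one, norm_mul, norm_real, Real.norm_eq_abs,
          abs_of_pos hK]
      have i5 : ‖gg α K ζ - gg α K ζ'‖ ≤ (2 * K + 6 + 8 * M) * C ^ 2 * ‖ζ - ζ'‖ ^ α *
          (‖gg α K ζ‖ * ‖gg α K ζ'‖) := by
        have e : gg α K ζ - gg α K ζ' = ((K : ℂ) / (1 - ζ) - (K : ℂ) / (1 - ζ')) +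
            (∑' k, BB α k ζ - ∑' k, BB α k ζ') := by
          unfold gg
          ring
        rw [e]
        refine (norm_add_le _ _).trans ?_
        set P : ℝ := C ^ 2 * (‖gg α K ζ‖ * ‖gg α K ζ'‖) with hP
        have hP0 : 0 ≤ P := by positivity
        have j1 : K * ‖ζ - ζ'‖ * (1 / (‖1 - ζ‖ * ‖1 - ζ'‖)) ≤ 2 * K * ‖ζ - ζ'‖ ^ α * P := by
          calc K * ‖ζ - ζ'‖ * (1 / (‖1 - ζ‖ * ‖1 - ζ'‖)) ≤ K * (2 * ‖ζ - ζ'‖ ^ α) * P :=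
                mul_le_mul (mul_le_mul_of_nonneg_left hδ2 hK.le) i2 (by positivity) (by positivity)
            _ = _ := by ring
        have j2 : 6 * ‖ζ - ζ'‖ ^ α * ((∑' k, AB α k ζ) * ∑' k, AB α k ζ') ≤
            6 * ‖ζ - ζ'‖ ^ α * P := mul_le_mul_of_nonneg_left i3 (by positivity)
        have j3 : 4 * ‖ζ - ζ'‖ / (‖1 - ζ‖ * ‖1 - ζ'‖) * M ≤ 8 * M * ‖ζ - ζ'‖ ^ α * P := by
          calc 4 * ‖ζ - ζ'‖ / (‖1 - ζ‖ * ‖1 - ζ'‖) * M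
              = 4 * M * ‖ζ - ζ'‖ * (1 / (‖1 - ζ‖ * ‖1 - ζ'‖)) := by ring
            _ ≤ 4 * M * (2 * ‖ζ - ζ'‖ ^ α) * P :=
                mul_le_mul (mul_le_mul_of_nonneg_left hδ2 (by positivity)) i2 (by positivity)
                  (by positivity)
            _ = _ := by ring
        have j4 : (2 * K + 6 + 8 * M) * C ^ 2 * ‖ζ - ζ'‖ ^ α * (‖gg α K ζ‖ * ‖gg α K ζ'‖) =
            2 * K * ‖ζ - ζ'‖ ^ α * P + 6 * ‖ζ - ζ'‖ ^ α * P + 8 * M * ‖ζ - ζ'‖ ^ α * P := by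
          rw [hP]
          ring
        rw [j4]
        linarith
      have e : (gg α K ζ)⁻¹ - (gg α K ζ')⁻¹ =
          -(gg α K ζ - gg α K ζ') / (gg α K ζ * gg α K ζ') := by
        field_simp
        ring
      rw [e, norm_div, norm_neg, norm_mul, div_le_iff₀ (by positivity)]
      refine i5.trans ?_
      refine mul_le_mul_of_nonneg_right ?_ (by positivity)
      rw [add_mul]
      have : 0 ≤ 34 * C * ‖ζ - ζ'‖ ^ α := by positivity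
      linarith
  -- a point of the set
  have hbad : ∀ ζ e : ℂ, ‖ζ‖ ≤ 1 → ζ ∉ EE α → e ∈ EE α →
      ‖(gg α K ζ)⁻¹‖ ≤ (10 * C + 1 / cc α) * ‖ζ - e‖ ^ α := by
    intro ζ e hζ hE he
    have hen := EE_norm he
    have hne : ζ ≠ e := fun h => hE (h ▸ he)
    have hδ : 0 < ‖ζ - e‖ := norm_pos_iff.2 (sub_ne_zero.2 hne)
    have hδα : 0 < ‖ζ - e‖ ^ α := Real.rpow_pos_of_pos hδ _
    have hδ2 := le_rpow_self h0 h1 hδ.le (norm_sub_le_two hζ hen.le)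
    obtain ⟨b1, -⟩ := hb ζ hζ hE
    have hcp : 0 < 1 / cc α := by positivity
    have hcδ : 0 < 1 / cc α * ‖ζ - e‖ ^ α := by positivity
    rcases he with rfl | ⟨k, j, hj, rfl⟩
    · have h2 : ‖1 - ζ‖ = ‖ζ - 1‖ := norm_sub_rev _ _
      rw [h2] at b1
      have h3 : C * ‖ζ - 1‖ ≤ C * (2 * ‖ζ - 1‖ ^ α) := mul_le_mul_of_nonneg_left hδ2 hC.le
      rw [add_mul]
      have h4 : 0 ≤ C * ‖ζ - 1‖ ^ α := by positivity
      linarith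
    · by_cases hr : ‖ζ - pt α k j‖ ≤ rr α k
      · have h2 := gg_near h0 h1 hK hζ hE hj hr
        have hgp : 0 < ‖gg α K ζ‖ := norm_pos_iff.2 (gg_ne h0 h1 hK hζ hE)
        have h3 : ‖(gg α K ζ)⁻¹‖ ≤ 1 / cc α * ‖ζ - pt α k j‖ ^ α := by
          rw [norm_inv]
          calc ‖gg α K ζ‖⁻¹ ≤ (cc α * (‖ζ - pt α k j‖ ^ α)⁻¹)⁻¹ := inv_anti₀ (by positivity) h2
            _ = _ := by rw [mul_inv, inv_inv, one_div]
        rw [add_mul]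
        have h4 : 0 ≤ 10 * C * ‖ζ - pt α k j‖ ^ α := by positivity
        linarith
      · have h2 : ss k ≤ 4 * ‖ζ - pt α k j‖ ^ α := by
          have h3 := (rr_rpow h0 h1 k).1
          have h4 : rr α k ^ α ≤ ‖ζ - pt α k j‖ ^ α :=
            Real.rpow_le_rpow (rr_pos k).le (not_le.1 hr).le h0.le
          linarith
        have h3 : ‖1 - ζ‖ ≤ 2 * ss k + ‖ζ - pt α k j‖ := by
          have h4 := (pt_one hj).2
          have h5 := norm_sub_le (1 - pt α k j) (ζ - pt α k j)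
          rw [sub_sub_sub_cancel_right] at h5
          linarith
        have h4 : ‖1 - ζ‖ ≤ 10 * ‖ζ - pt α k j‖ ^ α := by linarith
        have h5 := mul_le_mul_of_nonneg_left h4 hC.le
        rw [add_mul]
        linarith
  refine ⟨K, (34 * C + (2 * K + 6 + 8 * M) * C ^ 2) + (10 * C + 1 / cc α), hK, by positivity,
    fun ζ ζ' hζ hζ' => ?_⟩
  have hnn : 0 ≤ ‖ζ - ζ'‖ ^ α := Real.rpow_nonneg (norm_nonneg _) _
  have n1 : 0 ≤ (34 * C + (2 * K + 6 + 8 * M) * C ^ 2) * ‖ζ - ζ'‖ ^ α := by positivity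
  have n2 : 0 ≤ (10 * C + 1 / cc α) * ‖ζ - ζ'‖ ^ α := by positivity
  rw [add_mul]
  by_cases hE : ζ ∈ EE α <;> by_cases hE' : ζ' ∈ EE α
  · rw [hh_mem hE, hh_mem hE', sub_zero, norm_zero]
    linarith
  · rw [hh_mem hE, hh_not_mem hE', zero_sub, norm_neg]
    have := hbad ζ' ζ hζ' hE' hE
    rw [norm_sub_rev] at this
    linarith
  · rw [hh_not_mem hE, hh_mem hE', sub_zero]
    have := hbad ζ ζ' hζ hE hE'
    linarith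
  · rw [hh_not_mem hE, hh_not_mem hE']
    have := hgood ζ ζ' hζ hζ' hE hE'
    linarith

end Pool.Agent.Helper313PK
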