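import Pool.Agent.Helper313PK.HP

/-!
# The points, the radii and the masses
-/

set_option autoImplicit false

open Complex

namespace Pool.Agent.Helper313PK

/-- the scales -/
noncomputable def ss (k : ℕ) : ℝ := (1 / 16) ^ (k + 1)

/-- the exponent `1/α - 1` -/
noncomputable def bb (α : ℝ) : ℝ := 1 / α - 1

/-- the correction factors -/
noncomputable def ep (α : ℝ) (k : ℕ) : ℝ := ((k : ℝ) + 1) ^ (-(1 / α))

/-- the number of the points at the scale `ss k` -/
noncomputable def NN (α : ℝ) (k : ℕ) : ℕ := ⌈ep α k * ss k ^ (-bb α)⌉₊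

/-- the radii -/
noncomputable def rr (α : ℝ) (k : ℕ) : ℝ := ss k ^ (1 / α) / 4

/-- the masses -/
noncomputable def mm (α : ℝ) (k : ℕ) : ℝ := rr α k ^ (1 - α)

/-- the angles -/
noncomputable def th (α : ℝ) (k j : ℕ) : ℝ := ss k * (1 + j / NN α k)

/-- the points -/
noncomputable def pt (α : ℝ) (k j : ℕ) : ℂ := Complex.exp ((th α k j : ℂ) * I)

theorem ss_pos (k : ℕ) : 0 < ss k := by unfold ss; positivity

theorem ss_le (k : ℕ) : ss k ≤ 1 / 16 := by
  unfold ss
  calc ((1:ℝ) / 16) ^ (k + 1) ≤ (1 / 16) ^ 1 :=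
        pow_le_pow_of_le_one (by norm_num) (by norm_num) (by omega)
    _ = 1 / 16 := pow_one _

variable {α : ℝ}

theorem bb_pos (h0 : 0 < α) (h1 : α < 1) : 0 < bb α := by
  unfold bb
  rw [sub_pos, lt_div_iff₀ h0]
  linarith

theorem ep_pos (k : ℕ) : 0 < ep α k := by unfold ep; positivity

theorem NN_pos (k : ℕ) : 0 < NN α k := by
  unfold NN
  rw [Nat.ceil_pos]
  exact mul_pos (ep_pos k) (Real.rpow_pos_of_pos (ss_pos k) _)

theorem NN_posR (k : ℕ) : (0 : ℝ) < NN α k := by exact_mod_cast NN_pos k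

theorem rr_pos (k : ℕ) : 0 < rr α k := by
  unfold rr
  have := Real.rpow_pos_of_pos (ss_pos k) (1 / α)
  positivity

theorem mm_pos (k : ℕ) : 0 < mm α k := Real.rpow_pos_of_pos (rr_pos k) _

theorem rr_le (h0 : 0 < α) (h1 : α < 1) (k : ℕ) : rr α k ≤ ss k / 4 := by
  unfold rr
  have h2 : ss k ^ (1 / α) ≤ ss k ^ (1 : ℝ) := by
    refine Real.rpow_le_rpow_of_exponent_ge (ss_pos k) ((ss_le k).trans (by norm_num)) ?_
    rw [le_div_iff₀ h0]
    linarith
  rw [Real.rpow_one] at h2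
  linarith

theorem mm_le (h0 : 0 < α) (h1 : α < 1) (k : ℕ) : mm α k ≤ ss k ^ bb α := by
  unfold mm rr
  have hs := ss_pos k
  have h2 : (ss k ^ (1 / α) / 4) ^ (1 - α) ≤ (ss k ^ (1 / α)) ^ (1 - α) := by
    refine Real.rpow_le_rpow (by positivity) ?_ (by linarith)
    have := Real.rpow_pos_of_pos hs (1 / α)
    linarith
  refine h2.trans (le_of_eq ?_)
  rw [← Real.rpow_mul hs.le]
  congr 1
  unfold bb
  field_simp

theorem mm_div_rr (h0 : 0 < α) (h1 : α < 1) (k : ℕ) : mm α k / rr α k ≤ 4 / ss k := by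
  have hs := ss_pos k
  have hr := rr_pos (α := α) k
  have e1 : mm α k / rr α k = rr α k ^ (-α) := by
    unfold mm
    rw [← Real.rpow_sub_one hr.ne']
    congr 1
    ring
  rw [e1]
  unfold rr
  rw [Real.div_rpow (Real.rpow_nonneg hs.le _) (by norm_num), ← Real.rpow_mul hs.le]
  have e2 : 1 / α * -α = -1 := by field_simp
  rw [e2, Real.rpow_neg_one, Real.rpow_neg (by norm_num : (0:ℝ) ≤ 4), div_inv_eq_mul, mul_comm,
    ← div_eq_mul_inv]
  have : (4:ℝ) ^ α ≤ 4 := by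
    calc (4:ℝ) ^ α ≤ 4 ^ (1:ℝ) := Real.rpow_le_rpow_of_exponent_le (by norm_num) h1.le
      _ = 4 := Real.rpow_one _
  exact div_le_div_of_nonneg_right this hs.le

theorem NN_le (k : ℕ) : (NN α k : ℝ) ≤ ep α k * ss k ^ (-bb α) + 1 :=
  (Nat.ceil_lt_add_one (mul_nonneg (ep_pos k).le (Real.rpow_nonneg (ss_pos k).le _))).le

theorem NN_ge (k : ℕ) : ep α k * ss k ^ (-bb α) ≤ (NN α k : ℝ) := Nat.le_ceil _

theorem NNmm_le (h0 : 0 < α) (h1 : α < 1) (k : ℕ) :
    (NN α k : ℝ) * mm α k ≤ ep α k + ss k ^ bb α := by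
  have hs := ss_pos k
  have hb : 0 < ss k ^ bb α := Real.rpow_pos_of_pos hs _
  have h3 : ss k ^ (-bb α) * ss k ^ bb α = 1 := by
    rw [← Real.rpow_add hs]
    simp
  have he := ep_pos (α := α) k
  calc (NN α k : ℝ) * mm α k ≤ (ep α k * ss k ^ (-bb α) + 1) * ss k ^ bb α :=
        mul_le_mul (NN_le k) (mm_le h0 h1 k) (mm_pos k).le
          (by have := Real.rpow_pos_of_pos hs (-bb α); positivity)
    _ = ep α k * (ss k ^ (-bb α) * ss k ^ bb α) + ss k ^ bb α := by ring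
    _ = _ := by rw [h3, mul_one]

theorem ss_rpow (k : ℕ) (b : ℝ) : ss k ^ b = ((1 / 16 : ℝ) ^ b) ^ (k + 1) := by
  unfold ss
  rw [← Real.rpow_natCast, ← Real.rpow_mul (by norm_num), mul_comm, Real.rpow_mul (by norm_num),
    Real.rpow_natCast]

theorem summable_ssb (h0 : 0 < α) (h1 : α < 1) : Summable fun k => ss k ^ bb α := by
  have h2 : (1 / 16 : ℝ) ^ bb α < 1 := Real.rpow_lt_one (by norm_num) (by norm_num) (bb_pos h0 h1)
  have h3 : 0 ≤ (1 / 16 : ℝ) ^ bb α := Real.rpow_nonneg (by norm_num) _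
  have h4 := (summable_geometric_of_lt_one h3 h2).mul_left ((1 / 16 : ℝ) ^ bb α)
  refine h4.congr fun k => ?_
  rw [ss_rpow, pow_succ]
  ring

theorem summable_ep (h0 : 0 < α) (h1 : α < 1) : Summable fun k => ep α k := by
  have h2 : 1 < 1 / α := by
    rw [lt_div_iff₀ h0]
    linarith
  have h3 := (Real.summable_nat_rpow (p := -(1 / α))).2 (by linarith)
  have h4 := (summable_nat_add_iff 1).2 h3
  refine h4.congr fun k => ?_
  unfold ep
  push_cast
  rfl

theorem summable_NNmm (h0 : 0 < α) (h1 : α < 1) : Summable fun k => (NN α k : ℝ) * mm α k :=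
  Summable.of_nonneg_of_le (fun k => mul_nonneg (Nat.cast_nonneg _) (mm_pos k).le)
    (NNmm_le h0 h1) ((summable_ep h0 h1).add (summable_ssb h0 h1))

theorem ep_le_one (h0 : 0 < α) (k : ℕ) : ep α k ≤ 1 := by
  unfold ep
  refine Real.rpow_le_one_of_one_le_of_nonpos (by linarith [Nat.cast_nonneg (α := ℝ) k]) ?_
  have : 0 < 1 / α := by positivity
  linarith

theorem ep_mul (h0 : 0 < α) (h1 : α < 1) (k : ℕ) : ep α k * ((k : ℝ) + 1) ≤ 1 := by
  unfold ep
  have hk : (0 : ℝ) < (k : ℝ) + 1 := by positivity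
  rw [← Real.rpow_add_one hk.ne']
  refine Real.rpow_le_one_of_one_le_of_nonpos (by linarith [Nat.cast_nonneg (α := ℝ) k]) ?_
  have : 1 < 1 / α := by
    rw [lt_div_iff₀ h0]
    linarith
  linarith

/-- the logarithm of the number of points -/
theorem log_NN (h0 : 0 < α) (h1 : α < 1) : ∃ C : ℝ, 0 < C ∧ ∀ k : ℕ,
    1 + Real.log (NN α k) ≤ C * ((k : ℝ) + 1) := by
  have hb := bb_pos h0 h1
  have hl : 0 < Real.log 16 := Real.log_pos (by norm_num)
  have hl2 : 0 < Real.log 2 := Real.log_pos (by norm_num)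
  refine ⟨1 + Real.log 2 + bb α * Real.log 16, by positivity, fun k => ?_⟩
  have hs := ss_pos k
  have hk : (0 : ℝ) ≤ k := Nat.cast_nonneg _
  have h2 : (NN α k : ℝ) ≤ 2 * ss k ^ (-bb α) := by
    have h3 : (1 : ℝ) ≤ ss k ^ (-bb α) :=
      Real.one_le_rpow_of_pos_of_le_one_of_nonpos hs ((ss_le k).trans (by norm_num)) (by linarith)
    have h4 := NN_le (α := α) k
    have h5 := ep_le_one h0 k
    nlinarith
  have h3 : Real.log (NN α k) ≤ Real.log 2 + bb α * (((k : ℝ) + 1) * Real.log 16) := by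
    calc Real.log (NN α k) ≤ Real.log (2 * ss k ^ (-bb α)) := Real.log_le_log (NN_posR k) h2
      _ = Real.log 2 + (-bb α) * Real.log (ss k) := by
          rw [Real.log_mul (by norm_num) (Real.rpow_pos_of_pos hs _).ne', Real.log_rpow hs]
      _ = _ := by
          unfold ss
          rw [Real.log_pow, one_div, Real.log_inv]
          push_cast
          ring
  have h4 : 0 ≤ bb α * Real.log 16 := by positivity
  nlinarith [mul_nonneg hk hl2.le]

theorem NNmm_log (h0 : 0 < α) (h1 : α < 1) : ∃ C : ℝ, 0 < C ∧ ∀ k : ℕ,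
    (NN α k : ℝ) * mm α k * (1 + Real.log (NN α k)) ≤ C := by
  obtain ⟨C, hC, h⟩ := log_NN h0 h1
  have hb := bb_pos h0 h1
  have hl : 0 < Real.log 16 := Real.log_pos (by norm_num)
  set c : ℝ := bb α * Real.log 16 with hc
  have hc0 : 0 < c := by positivity
  refine ⟨C * (1 + 1 / c), by positivity, fun k => ?_⟩
  have hk : (0 : ℝ) < (k : ℝ) + 1 := by positivity
  have hs := ss_pos k
  have h2 : ss k ^ bb α * ((k : ℝ) + 1) ≤ 1 / c := by
    have e1 : ss k ^ bb α = Real.exp (-(c * ((k : ℝ) + 1))) := by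
      rw [Real.rpow_def_of_pos hs]
      congr 1
      unfold ss
      rw [Real.log_pow, one_div, Real.log_inv, hc]
      push_cast
      ring
    have h3 : c * ((k : ℝ) + 1) ≤ Real.exp (c * ((k : ℝ) + 1)) := by
      have := Real.add_one_le_exp (c * ((k : ℝ) + 1))
      linarith
    rw [e1, Real.exp_neg, inv_mul_eq_div, div_le_div_iff₀ (Real.exp_pos _) hc0]
    linarith
  have h4 : (NN α k : ℝ) * mm α k * ((k : ℝ) + 1) ≤ 1 + 1 / c := by
    calc (NN α k : ℝ) * mm α k * ((k : ℝ) + 1) ≤ (ep α k + ss k ^ bb α) * ((k : ℝ) + 1) :=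
          mul_le_mul_of_nonneg_right (NNmm_le h0 h1 k) hk.le
      _ = ep α k * ((k : ℝ) + 1) + ss k ^ bb α * ((k : ℝ) + 1) := by ring
      _ ≤ _ := add_le_add (ep_mul h0 h1 k) h2
  have h5 : 0 ≤ (NN α k : ℝ) * mm α k := mul_nonneg (Nat.cast_nonneg _) (mm_pos k).le
  calc (NN α k : ℝ) * mm α k * (1 + Real.log (NN α k))
      ≤ (NN α k : ℝ) * mm α k * (C * ((k : ℝ) + 1)) := mul_le_mul_of_nonneg_left (h k) h5
    _ = C * ((NN α k : ℝ) * mm α k * ((k : ℝ) + 1)) := by ring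
    _ ≤ _ := mul_le_mul_of_nonneg_left h4 hC.le

/-- the sum which diverges -/
theorem gap_ge (h0 : 0 < α) (h1 : α < 1) (k : ℕ) :
    1 / ((k : ℝ) + 1) ≤ ss k * (ss k / NN α k) ^ (-α) := by
  have hs := ss_pos k
  have hN := NN_posR (α := α) k
  have hk : (0 : ℝ) < (k : ℝ) + 1 := by positivity
  have he := ep_pos (α := α) k
  have hsb := Real.rpow_pos_of_pos hs (-bb α)
  have e1 : (ss k / NN α k) ^ (-α) = ss k ^ (-α) * (NN α k : ℝ) ^ α := by
    rw [Real.div_rpow hs.le hN.le, Real.rpow_neg hN.le, div_inv_eq_mul]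
  have h2 : (ep α k * ss k ^ (-bb α)) ^ α ≤ (NN α k : ℝ) ^ α :=
    Real.rpow_le_rpow (by positivity) (NN_ge k) h0.le
  have e2 : (ep α k * ss k ^ (-bb α)) ^ α = 1 / ((k : ℝ) + 1) * ss k ^ (α - 1) := by
    rw [Real.mul_rpow he.le hsb.le]
    congr 1
    · unfold ep
      rw [← Real.rpow_mul hk.le]
      have : -(1 / α) * α = -1 := by field_simp
      rw [this, Real.rpow_neg_one, one_div]
    · rw [← Real.rpow_mul hs.le]
      congr 1
      unfold bb
      field_simp
      ring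
  have e3 : ss k * (ss k ^ (-α) * (1 / ((k : ℝ) + 1) * ss k ^ (α - 1))) = 1 / ((k : ℝ) + 1) := by
    have : ss k * ss k ^ (-α) * ss k ^ (α - 1) = 1 := by
      nth_rewrite 1 [← Real.rpow_one (ss k)]
      rw [← Real.rpow_add hs, ← Real.rpow_add hs]
      ring_nf
      exact Real.rpow_zero _
    calc ss k * (ss k ^ (-α) * (1 / ((k : ℝ) + 1) * ss k ^ (α - 1)))
        = (ss k * ss k ^ (-α) * ss k ^ (α - 1)) * (1 / ((k : ℝ) + 1)) := by ring
      _ = _ := by rw [this, one_mul]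
  rw [e1, ← e3, ← e2]
  exact mul_le_mul_of_nonneg_left (mul_le_mul_of_nonneg_left h2 (Real.rpow_nonneg hs.le _)) hs.le

/-! ### chords -/

theorem chord_eq (x y : ℝ) : ‖Complex.exp ((x : ℂ) * I) - Complex.exp ((y : ℂ) * I)‖ =
    2 * |Real.sin ((x - y) / 2)| := by
  have e : Complex.exp ((x : ℂ) * I) - Complex.exp ((y : ℂ) * I) =
      Complex.exp ((y : ℂ) * I) * (Complex.exp (I * ((x - y : ℝ) : ℂ)) - 1) := by
    rw [mul_sub, ← Complex.exp_add, mul_one]
    congr 2
    push_cast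
    ring
  rw [e, norm_mul, norm_exp_ofReal_mul_I, one_mul, norm_exp_I_mul_ofReal_sub_one, Real.norm_eq_abs,
    abs_mul]
  norm_num

theorem chord_le (x y : ℝ) : ‖Complex.exp ((x : ℂ) * I) - Complex.exp ((y : ℂ) * I)‖ ≤ |x - y| := by
  rw [chord_eq]
  have := Real.abs_sin_le_abs (x := (x - y) / 2)
  rw [abs_div, abs_two] at this
  linarith

theorem chord_ge {x y : ℝ} (h : |x - y| ≤ Real.pi) :
    5 / 8 * |x - y| ≤ ‖Complex.exp ((x : ℂ) * I) - Complex.exp ((y : ℂ) * I)‖ := by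
  rw [chord_eq]
  have h1 : |Real.sin ((x - y) / 2)| = Real.sin (|x - y| / 2) := by
    rcases abs_cases (x - y) with ⟨h2, h3⟩ | ⟨h2, h3⟩
    · rw [h2, abs_of_nonneg]
      apply Real.sin_nonneg_of_nonneg_of_le_pi (by linarith)
      rw [h2] at h
      linarith [Real.pi_pos]
    · rw [h2, neg_div, Real.sin_neg, abs_of_nonpos]
      rw [← neg_neg ((x - y) / 2), Real.sin_neg]
      have : 0 ≤ Real.sin (-((x - y) / 2)) := by
        apply Real.sin_nonneg_of_nonneg_of_le_pi (by linarith)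
        rw [h2] at h
        linarith [Real.pi_pos]
      linarith
  rw [h1]
  have h2 := Real.mul_le_sin (x := |x - y| / 2) (by positivity) (by linarith)
  have h3 : 5 / 8 ≤ 2 / Real.pi := by
    rw [le_div_iff₀ Real.pi_pos]
    have := Real.pi_lt_d2
    linarith
  have h4 := abs_nonneg (x - y)
  nlinarith

theorem th_bd {k j : ℕ} (hj : j < NN α k) : ss k ≤ th α k j ∧ th α k j ≤ 2 * ss k := by
  have hs := ss_pos k
  have hN := NN_posR (α := α) k
  unfold th
  have h1 : (0 : ℝ) ≤ j / NN α k := by positivity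
  have h2 : (j : ℝ) / NN α k ≤ 1 := by
    rw [div_le_one hN]
    exact_mod_cast hj.le
  constructor <;> nlinarith

theorem pt_norm (k j : ℕ) : ‖pt α k j‖ = 1 := norm_exp_ofReal_mul_I _

theorem pt_one {k j : ℕ} (hj : j < NN α k) :
    5 / 8 * ss k ≤ ‖1 - pt α k j‖ ∧ ‖1 - pt α k j‖ ≤ 2 * ss k := by
  obtain ⟨h1, h2⟩ := th_bd hj
  have hs := ss_pos k
  have hs' := ss_le k
  have e : ‖1 - pt α k j‖ = ‖Complex.exp ((th α k j : ℂ) * I) - Complex.exp (((0 : ℝ) : ℂ) * I)‖ := by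
    rw [norm_sub_rev]
    unfold pt
    simp
  have e2 : |th α k j - 0| = th α k j := by rw [sub_zero, abs_of_nonneg (by linarith)]
  rw [e]
  constructor
  · have := chord_ge (x := th α k j) (y := 0) (by rw [e2]; linarith [Real.pi_gt_three])
    rw [e2] at this
    linarith
  · have := chord_le (th α k j) 0
    rw [e2] at this
    linarith

theorem pt_sub {k i j : ℕ} (hi : i < NN α k) (hj : j < NN α k) :
    5 / 8 * (ss k / NN α k) * |(i : ℝ) - j| ≤ ‖pt α k i - pt α k j‖ := by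
  have hs := ss_pos k
  have hs' := ss_le k
  have hN := NN_posR (α := α) k
  obtain ⟨h1, h2⟩ := th_bd hi
  obtain ⟨h3, h4⟩ := th_bd hj
  have e : th α k i - th α k j = ss k / NN α k * ((i : ℝ) - j) := by
    unfold th
    field_simp
    ring
  have h5 : |th α k i - th α k j| ≤ Real.pi := by
    rw [abs_le]
    constructor <;> linarith [Real.pi_gt_three]
  have h6 := chord_ge h5
  rw [e, abs_mul, abs_of_pos (div_pos hs hN)] at h6
  unfold pt
  linarith

end Pool.Agent.Helper313PK
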